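import Pool.Agent.T2h98.AC.All

set_option autoImplicit false

/-!
# Gaussian disorder: a change of the kinetic energy below the kinetic scale gives a.c. spectrum

Gaussian Anderson models `Δ + b(Δ) + σ ξ` on `ℓ²(ℤ^d)`, `d ≥ 3`, `Δ` the adjacency operator: for
every `a < 2 d` and `h < 1 / 6` (`d = 3`), `h < 1 / 3` (`d ≥ 4`), and all small `σ ≠ 0`, there is a
continuous `b` with `|b| ≤ |σ| ^ (2 + h)` and hopping amplitudes at most
`C_d |σ| ^ (2 + h) / (1 + |x|) ^ (d / 3)` for which the spectrum in `(-a, a)` is almost surely purely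
absolutely continuous. The size of `b` is a power of `|σ|` below the kinetic scale `σ²`, the inverse
of the mean free time.
-/

namespace Pool.Agent.T2h98.Kept.ACBelowKineticScale

open MeasureTheory ProbabilityTheory

noncomputable section

/-- The hopping amplitudes of `b(Δ)` on `ℤ^d`: the Fourier coefficients of the symbol
`b(∑ i 2 cos (2 π k_i))`. -/
def hopping (b : ℝ → ℝ) (d : ℕ) (x : Fin d → ℤ) : ℂ :=
  UnitAddTorus.mFourierCoeff
    (fun k : UnitAddTorus (Fin d) => ((b (∑ i, 2 * (fourier 1 (k i)).re) : ℝ) : ℂ)) x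

/-- `(Δ + b(Δ) + σ ξ) u (x)`, where `Δ u (x) = ∑_{|y-x|=1} u(y)`. -/
def H (b : ℝ → ℝ) {d : ℕ} (σ : ℝ) (ξ : (Fin d → ℤ) → ℝ) (u : (Fin d → ℤ) → ℂ)
    (x : Fin d → ℤ) : ℂ :=
  (∑ i : Fin d, (u (x + Pi.single i 1) + u (x - Pi.single i 1)))
    + (∑' y, hopping b d (x - y) * u y) + ((σ * ξ x : ℝ) : ℂ) * u x

/-- `u` is square summable and `(H - z) u = δ_x`, i.e. `u = (H - z)⁻¹ δ_x`. -/
def IsGreen (b : ℝ → ℝ) {d : ℕ} (σ : ℝ) (ξ : (Fin d → ℤ) → ℝ) (z : ℂ) (x : Fin d → ℤ)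
    (u : (Fin d → ℤ) → ℂ) : Prop :=
  Summable (fun y => ‖u y‖ ^ 2) ∧ ∀ y, H b σ ξ u y - z * u y = if y = x then 1 else 0

/-- Purely absolutely continuous spectrum filling the interval `(a₁, a₂)`: for every site `x` the
spectral measure `μ` of `δ_x`, i.e. the finite measure with
`⟨δ_x, (H - z)⁻¹ δ_x⟩ = ∫ dμ(E) / (E - z)`, has on `(a₁, a₂)` a density `h`, positive almost
everywhere there. -/
def ACOn (b : ℝ → ℝ) {d : ℕ} (σ : ℝ) (ξ : (Fin d → ℤ) → ℝ) (a₁ a₂ : ℝ) : Prop :=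
  ∀ x : Fin d → ℤ, ∃ (μ : Measure ℝ) (h : ℝ → ℝ), IsFiniteMeasure μ ∧
    (∀ z : ℂ, 0 < z.im → (∃ u, IsGreen b σ ξ z x u) ∧
      ∀ u, IsGreen b σ ξ z x u → u x = ∫ E : ℝ, 1 / ((E : ℂ) - z) ∂μ) ∧
    Measurable h ∧ (∀ᵐ E ∂(volume.restrict (Set.Ioo a₁ a₂)), 0 < h E) ∧
    μ.restrict (Set.Ioo a₁ a₂)
      = (volume.restrict (Set.Ioo a₁ a₂)).withDensity fun E => ENNReal.ofReal (h E)

theorem adj_eq (d : ℕ) (k : UnitAddTorus (Fin d)) :
    W792.WA.Br.adj d k = ∑ i, 2 * (fourier 1 (k i)).re := by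
  rw [W792.WA.Br.adj_apply]
  change 2 * (d : ℝ) - ∑ i, (2 - 2 * (fourier 1 (k i)).re) = _
  rw [Finset.sum_sub_distrib]
  simp
  ring

theorem ac_of {b : ℝ → ℝ} {d : ℕ} (B : C(UnitAddTorus (Fin d), ℝ))
    (hB : ∀ k, B k = b (W792.WA.Br.adj d k)) {σ : ℝ} {ξ : (Fin d → ℤ) → ℝ} {a₁ a₂ : ℝ}
    (h : W792.WA.ACIK (W792.WA.Br.adj d + B) σ ξ a₁ a₂) : ACOn b σ ξ a₁ a₂ := by
  intro x
  obtain ⟨μ, g, h1, h2, h3, h4, h5⟩ := h x
  have e0 : (fun k : UnitAddTorus (Fin d) => ((B k : ℝ) : ℂ))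
      = fun k => ((b (∑ i, 2 * (fourier 1 (k i)).re) : ℝ) : ℂ) := by
    funext k
    rw [hB, adj_eq]
  refine ⟨μ, g, h1, fun z hz => ?_, h3, h4, h5⟩
  have e : ∀ u, W792.LL.Sol (W792.LL.hopK (W792.WA.Br.adj d + B)) σ ξ z x u
      ↔ IsGreen b σ ξ z x u := by
    intro u
    rw [W792.WA.Br.sol_adj_iff B σ ξ z x u, e0]
    rfl
  obtain ⟨⟨w, hw⟩, h6⟩ := h2 z hz
  exact ⟨⟨w, (e w).1 hw⟩, fun u hu => h6 u ((e u).2 hu)⟩

theorem ACOn_neg {b : ℝ → ℝ} {d : ℕ} {σ : ℝ} {ξ : (Fin d → ℤ) → ℝ} {a₁ a₂ : ℝ}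
    (h : ACOn b (-σ) (fun x => -ξ x) a₁ a₂) : ACOn b σ ξ a₁ a₂ := by
  have e : ∀ x, (-σ) * (-ξ x) = σ * ξ x := fun x => by ring
  unfold ACOn IsGreen H at h ⊢
  simp only [e] at h
  exact h

/-- Let `d ≥ 3`. There is a constant `C_d` such that for every `0 < h < 1 / 6` (`d = 3`) or
`0 < h < 1 / 3` (`d ≥ 4`) and every `0 < a < 2 d` there is `σ₀ > 0` such that for `0 < |σ| ≤ σ₀`
there is a continuous `b` with `|b| ≤ |σ| ^ (2 + h)` and hopping amplitudes at most
`C_d |σ| ^ (2 + h) / (1 + |x|) ^ (d / 3)`, `|x| = max |x_i|`, for which the spectrum of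
`Δ + b(Δ) + σ ξ`, `ξ` i.i.d. standard Gaussian, in `(-a, a)` is almost surely purely absolutely
continuous, and it fills this interval. -/
theorem result (d : ℕ) (hd : 3 ≤ d) :
    ∃ Cd : ℝ, 0 < Cd ∧ ∀ h : ℝ, 0 < h → h < (if d = 3 then 1 / 6 else 1 / 3) →
      ∀ a : ℝ, 0 < a → a < 2 * d → ∃ σ₀ : ℝ, 0 < σ₀ ∧
      ∀ σ : ℝ, 0 < |σ| → |σ| ≤ σ₀ → ∃ b : ℝ → ℝ, Continuous b ∧
        (∀ t, |b t| ≤ |σ| ^ (2 + h)) ∧
        (∀ x : Fin d → ℤ, ‖hopping b d x‖
          ≤ Cd * |σ| ^ (2 + h) / (1 + ‖x‖) ^ ((d : ℝ) / 3)) ∧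
        ∀ᵐ ξ ∂(Measure.infinitePi fun _ : Fin d → ℤ => gaussianReal 0 1),
          ACOn b σ ξ (-a) a := by
  obtain ⟨Cd, hCd, hK⟩ := T2h98.AC.kgnA d hd
  refine ⟨Cd, hCd, fun h hh0 hh1 a h1 h2 => ?_⟩
  obtain ⟨σ₀, h0, hK1⟩ := hK h hh0 hh1 a h1 h2
  refine ⟨σ₀, h0, fun σ hs1 hs2 => ?_⟩
  obtain ⟨b, hb1, hb2, hb3⟩ := hK1 |σ| hs1 hs2
  have hadj : ∀ k, N659.HB.adjm d k = W792.WA.Br.adj d k := fun k => rfl
  have hadj' : N659.HB.adjm d = W792.WA.Br.adj d := ContinuousMap.ext hadj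
  have hbd' : ∀ x : Fin d → ℤ, ‖hopping b d x‖
      ≤ Cd * |σ| ^ (2 + h) / (1 + ‖x‖) ^ ((d : ℝ) / 3) := by
    intro x
    have h := hb2 x
    simp only [hadj, adj_eq] at h
    exact h
  refine ⟨b, b.continuous, hb1, hbd', ?_⟩
  have h3 : ∀ᵐ ξ ∂(Measure.infinitePi fun _ : Fin d → ℤ => gaussianReal 0 1),
      ACOn b |σ| ξ (-a) a := by
    change ∀ᵐ ξ ∂(W792.WA.Pn (gaussianReal 0 1) (Fin d → ℤ)), _
    rw [hadj'] at hb3
    filter_upwards [hb3] with v hv
    exact ac_of (b.comp (W792.WA.Br.adj d)) (fun k => rfl) hv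
  rcases lt_or_gt_of_ne (abs_pos.1 hs1) with h | h
  · rw [abs_of_neg h] at h3
    have hm : Measurable fun t : ℝ => -t := measurable_neg
    have hg : (gaussianReal 0 1).map (fun t : ℝ => -t) = gaussianReal 0 1 := by
      have := gaussianReal_map_neg (μ := 0) (v := 1)
      rwa [neg_zero] at this
    have h4 : (Measure.infinitePi fun _ : Fin d → ℤ => gaussianReal 0 1) =
        (Measure.infinitePi fun _ : Fin d → ℤ => gaussianReal 0 1).map (fun ξ x => -ξ x) := by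
      have h5 := (Measure.infinitePi_map_pi (μ := fun _ : Fin d → ℤ => gaussianReal 0 1)
        (f := fun _ => fun t : ℝ => -t) (fun _ => hm))
      rw [h5]
      congr 1
      funext _
      exact hg.symm
    rw [h4] at h3
    have h5 : Measurable fun (ξ : (Fin d → ℤ) → ℝ) (x : Fin d → ℤ) => -ξ x :=
      measurable_pi_lambda _ fun x => hm.comp (measurable_pi_apply x)
    have h6 := ae_of_ae_map h5.aemeasurable h3
    filter_upwards [h6] with ξ hξ
    exact ACOn_neg hξ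
  · rw [abs_of_pos h] at h3
    exact h3

end

end Pool.Agent.T2h98.Kept.ACBelowKineticScale

/-
Former claim of MP_1906c1_mp.ACBelowKineticScale:
Proves: For every d >= 3 there is C > 0 such that for 0 < h < 1/6 if d = 3, 0 < h < 1/3 if d >= 4, and 0 < a < 2d there is s0 > 0 such that for 0 < |sigma| <= s0 there is a continuous b: R -> R with |b| <= |sigma|^(2+h) and hopping amplitudes at most C |sigma|^(2+h) (1+|x|)^(-d/3) (maximum norm) for which, almost surely for iid standard Gaussian xi on Z^d, the spectrum of Delta + b(Delta) + sigma xi in (-a,a) is purely absolutely continuous and fills (-a,a).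
Definitions: hopping = Fourier coefficients of b(2 sum cos(2 pi k_i)) on the unit torus; H = neighbour sum + convolution with hopping + sigma xi(x); IsGreen = square summable u with (H-z)u = delta_x; ACOn = for every site x some finite measure m has u(x) = int dm(E)/(E-z) for all Green functions u, which exist, Im z > 0, and on (a1,a2) m has a density positive almost everywhere.
Relation: Partial result towards (2b), for a changed operator: b(Delta) is a power of |sigma| smaller than the kinetic scale sigma^2 (the inverse mean free time), so it is not felt at times |sigma|^(-2-h'), h' < h, beyond the kinetic time. The starting result GaussianKineticScaleAC needs |b| up to sigma^2 |log sigma|^10, larger than sigma^2. The hopping of b is long ranged, and nothing is shown for H_sigma itself. New input: averaged Green functions of dissipative operators below the kinetic scale. No earlier work of this kind is known to us beside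 the starting results.

-/
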