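import Pool.Agent.T2h98.GBK.Ev
import Pool.Agent.W193.BK.ES
import Pool.Agent.W240.BK.Var
import Pool.Agent.W540.BK.Fac
import Pool.Agent.W240.BK.Fluct
import Pool.Agent.W340.BK.Conc
import Pool.Agent.W918.BK.Osc
import Pool.Agent.W240.BK.Two
import Pool.Agent.W465.BK.QB
import Pool.Agent.W475.BK.Low
import Pool.Agent.W975.BK.Sup
import Pool.Agent.W790.BK.ADM
import Pool.Agent.W475.BK.Inv
import Pool.Agent.W351.BK.Mb
import Pool.Agent.W363.BK.Site
import Pool.Agent.W261.BK.Third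

/-!
# Gaussian disorder, all energies: nothing is localized on the kinetic scale

`H_σ = Δ + σ ξ` on `ℤ^d`, `d ≥ 3`, `(Δψ)(x) = ∑_{|y-x|=1} ψ(y)`, iid standard Gaussian `ξ`. There are
`σ₀ > 0` and `K`, depending only on `d`, such that for `0 < |σ| ≤ σ₀`, with probability at least
`1 - exp(-|σ|^{-1/200})`,
* every spectral measure `μ` of a vector `g` supported in the box of radius `exp(|σ|^{-1/200})`
  satisfies `μ [E - s, E + s] ≤ K log(1/|σ|) s ‖g‖₁²` at all energies `E` and for all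
  `s ≥ |σ|^{19/9}`;
* every `ℓ²`-eigenfunction `u`, at whatever energy, satisfies
  `|u(x)|² ≤ K log(1/|σ|) |σ|^{19/9} ‖u‖²` at all sites of that box.
The natural kinetic scale (the inverse mean free time) is `σ²`; the scale `|σ|^{19/9}` is much
smaller.

The proof clips the Gaussian variables at the level `|σ|^{-1/153}`, applies the resolvent analysis
of the starting files `Pool/Agent/W788/BK` (theorem `engine`, used there for bounded disorder in
`MP_28b024_mp.BeyondKineticScale`) to the clipped variables, and localizes solutions of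
`(H - E) u = f` to a box in which nothing has been clipped.
-/

set_option autoImplicit false

open scoped BigOperators ENNReal
open MeasureTheory ProbabilityTheory

namespace Pool.Agent.Results.MP_1906c1_mp.BeyondKineticScale

/-- `(H_σ ψ)(x) = ∑_{|y-x|=1} ψ(y) + σ ξ(x) ψ(x)` -/
noncomputable def H {d : ℕ} (σ : ℝ) (ξ : (Fin d → ℤ) → ℝ) (ψ : (Fin d → ℤ) → ℂ)
    (x : Fin d → ℤ) : ℂ :=
  ∑ i : Fin d, (ψ (x + Pi.single i 1) + ψ (x - Pi.single i 1)) + ((σ * ξ x : ℝ) : ℂ) * ψ x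

/-- square summable functions -/
def SqSummable {d : ℕ} (u : (Fin d → ℤ) → ℂ) : Prop := Summable fun x => ‖u x‖ ^ 2

/-- `μ` is the spectral measure of the vector `g`: a finite measure whose Borel transform
`∫ (E - z)⁻¹ dμ(E)` is `⟨g, (A - z)⁻¹ g⟩` for all non-real `z` -/
def IsSpectralMeasure {d : ℕ} (A : ((Fin d → ℤ) → ℂ) → (Fin d → ℤ) → ℂ) (g : (Fin d → ℤ) → ℂ)
    (μ : Measure ℝ) : Prop :=
  IsFiniteMeasure μ ∧ ∀ z : ℂ, z.im ≠ 0 → ∃ u : (Fin d → ℤ) → ℂ, SqSummable u ∧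
    (∀ x, A u x - z * u x = g x) ∧ ∫ E : ℝ, ((E : ℂ) - z)⁻¹ ∂μ = ∑' x, (starRingEnd ℂ) (g x) * u x

/-- The law of iid standard Gaussian variables on `ℤ^d`. -/
noncomputable def law (d : ℕ) : Measure ((Fin d → ℤ) → ℝ) :=
  Measure.infinitePi fun _ => gaussianReal 0 1

theorem law_neg (d : ℕ) : (law d).map (fun ξ x => -ξ x) = law d := by
  unfold law
  have h1 := Measure.infinitePi_map_pi (μ := fun _ : Fin d → ℤ => gaussianReal 0 1)
    (f := fun _ (s : ℝ) => -s) (fun _ => measurable_neg)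
  simp only [gaussianReal_map_neg, neg_zero] at h1
  exact h1

/-- the two properties -/
def Flat {d : ℕ} (σ K : ℝ) (ξ : (Fin d → ℤ) → ℝ) : Prop :=
  (∀ (g : (Fin d → ℤ) → ℂ) (B : Finset (Fin d → ℤ)),
    (∀ a ∈ B, ‖a‖ ≤ Real.exp (|σ| ^ (-(1 / 200) : ℝ))) → (∀ a, a ∉ B → g a = 0) →
    ∀ μ : Measure ℝ, IsSpectralMeasure (H σ ξ) g μ →
    ∀ E s : ℝ, |σ| ^ (19 / 9 : ℝ) ≤ s →
    μ.real (Set.Icc (E - s) (E + s)) ≤ K * Real.log (1 / |σ|) * s * (∑ a ∈ B, ‖g a‖) ^ 2) ∧
  (∀ (E : ℝ) (u : (Fin d → ℤ) → ℂ), SqSummable u → (∀ x, H σ ξ u x = (E : ℂ) * u x) →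
    ∀ a : Fin d → ℤ, ‖a‖ ≤ Real.exp (|σ| ^ (-(1 / 200) : ℝ)) →
    ‖u a‖ ^ 2 ≤ K * Real.log (1 / |σ|) * |σ| ^ (19 / 9 : ℝ) * ∑' x, ‖u x‖ ^ 2)

theorem H_neg {d : ℕ} (σ : ℝ) (ξ : (Fin d → ℤ) → ℝ) : H (-σ) (fun x => -ξ x) = H σ ξ := by
  funext u x
  unfold H
  rw [neg_mul_neg]

theorem flat_neg {d : ℕ} (σ K : ℝ) (ξ : (Fin d → ℤ) → ℝ) (h : Flat (-σ) K (fun x => -ξ x)) :
    Flat σ K ξ := by
  unfold Flat at h ⊢
  rw [H_neg, abs_neg] at h
  exact h

theorem pos_case (d : ℕ) (hd : 3 ≤ d) :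
    ∃ σ₀ K : ℝ, 0 < σ₀ ∧ 0 < K ∧ ∀ σ : ℝ, 0 < σ → σ ≤ σ₀ →
      ∃ G : Set ((Fin d → ℤ) → ℝ), MeasurableSet G ∧
        1 - Real.exp (-|σ| ^ (-(1 / 200) : ℝ)) ≤ (law d).real G ∧ ∀ ξ ∈ G, Flat σ K ξ := by
  obtain ⟨y0, K, hy0, hK, h⟩ := Pool.Agent.T2h98.GBK.event
    (Pool.Agent.W261.BK.third Pool.Agent.W540.BK.fac)
    (Pool.Agent.W240.BK.fluct (Pool.Agent.W240.BK.var Pool.Agent.W193.BK.ES.es))
    Pool.Agent.W475.BK.inv Pool.Agent.W351.BK.mb
    (Pool.Agent.W340.BK.Conc.conc Pool.Agent.W193.BK.ES.es)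
    Pool.Agent.W975.BK.sup Pool.Agent.W363.BK.site
    (Pool.Agent.W465.BK.qb (Pool.Agent.W240.BK.two Pool.Agent.W918.BK.Osc.osc))
    Pool.Agent.W475.BK.low Pool.Agent.W790.BK.ADM.adm d hd
  refine ⟨Real.exp (-y0), 20 * K, Real.exp_pos _, by positivity, ?_⟩
  intro σ hσ hσ0
  obtain ⟨y, hy⟩ : ∃ y, y = Real.log (1 / σ) := ⟨_, rfl⟩
  have hlog : Real.log σ = -y := by rw [hy, one_div, Real.log_inv, neg_neg]
  have hyy : y0 ≤ y := by
    have h1 := Real.log_le_log hσ hσ0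
    rw [Real.log_exp, hlog] at h1
    linarith
  have e1 : |σ| ^ (-(1 / 200) : ℝ) = Real.exp (y / 200) := by
    rw [abs_of_pos hσ, Real.rpow_def_of_pos hσ, hlog]
    congr 1
    ring
  have e2 : |σ| ^ (19 / 9 : ℝ) = Real.exp (-(19 / 9) * y) := by
    rw [abs_of_pos hσ, Real.rpow_def_of_pos hσ, hlog]
    congr 1
    ring
  have e3 : Real.exp (-y) = σ := by rw [← hlog, Real.exp_log hσ]
  obtain ⟨G, hG, hP, hb⟩ := h y hyy
  refine ⟨G, hG, ?_, fun ξ hξ => ?_⟩
  · rw [e1]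
    exact hP
  · have hs := hb ξ hξ
    rw [e3] at hs
    have ht1 : Real.exp (-(19 / 9) * y) ≤ 1 / 2 := by
      have h1 : Real.exp (-(19 / 9) * y) ≤ Real.exp (-1) := by
        apply Real.exp_le_exp.2
        linarith
      have h2 : Real.exp (-1) ≤ 1 / 2 := by
        rw [Real.exp_neg, one_div]
        apply inv_anti₀ (by norm_num)
        have := Real.exp_one_gt_d9
        linarith
      linarith
    have hy1 : 0 < y := by linarith
    obtain ⟨f1, f2⟩ := Pool.Agent.W788.BK.flat1 σ _ (Real.exp (-(19 / 9) * y)) _ (Real.exp_pos _)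
      ht1 (by positivity) ξ hs (fun x => -(σ * ξ x)) 0 (fun x => by ring)
    unfold Flat
    rw [e1, e2, abs_of_pos hσ, ← hy]
    constructor
    · intro g B hB hgB μ hμ E s hs2
      have hfin := hμ.1
      have hmf : IsFiniteMeasure (μ.map fun t : ℝ => -t) :=
        Measure.isFiniteMeasure_map μ _
      have h1 := f1 g B hB hgB (μ.map fun t : ℝ => -t) hmf (fun z hz => by
        obtain ⟨u, hu, heq, hint⟩ := hμ.2 (-z) (by simpa using hz)
        have hu' : Summable fun x => ‖u x‖ ^ 2 := hu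
        refine ⟨fun x => -u x, by simpa only [norm_neg] using hu', fun x => ?_, ?_⟩
        · have h2 := heq x
          unfold H at h2
          unfold Pool.Agent.W788.LD.Spec.S
          have h3 : ∑ i : Fin d, (-u (x + Pi.single i 1) + -u (x - Pi.single i 1)) =
              -∑ i : Fin d, (u (x + Pi.single i 1) + u (x - Pi.single i 1)) := by
            rw [← Finset.sum_neg_distrib]
            exact Finset.sum_congr rfl fun i _ => by ring
          rw [h3]
          push_cast at h2 ⊢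
          linear_combination h2
        · have hmeas : AEMeasurable (fun t : ℝ => -t) μ := measurable_neg.aemeasurable
          rw [integral_map hmeas]
          · have h4 : ∀ t : ℝ, (((-t : ℝ) : ℂ) - z)⁻¹ = -((t : ℂ) - -z)⁻¹ := by
              intro t
              rw [← inv_neg]
              congr 1
              push_cast
              ring
            simp only [h4, integral_neg, hint, mul_neg, tsum_neg]
          · have hm2 : Measurable fun t : ℝ => ((t : ℂ) - z)⁻¹ := by fun_prop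
            exact hm2.aestronglyMeasurable) (-E) s hs2
      have h5 : (μ.map fun t : ℝ => -t).real (Set.Icc (-E - s) (-E + s)) =
          μ.real (Set.Icc (E - s) (E + s)) := by
        rw [map_measureReal_apply measurable_neg measurableSet_Icc]
        congr 1
        ext t
        simp only [Set.mem_preimage, Set.mem_Icc]
        constructor <;> rintro ⟨a, b⟩ <;> constructor <;> linarith
      rw [h5] at h1
      refine h1.trans (le_of_eq ?_)
      ring
    · intro E u hu heq a ha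
      have h1 := f2 (-E) u hu (fun x => by
        have h2 := heq x
        unfold H at h2
        unfold Pool.Agent.W788.LD.Spec.S
        push_cast at h2 ⊢
        linear_combination -h2) a ha
      refine h1.trans ?_
      have h3 : 0 ≤ ∑' x, ‖u x‖ ^ 2 := tsum_nonneg fun x => by positivity
      apply mul_le_mul_of_nonneg_right _ h3
      have h4 : 0 ≤ K * y * Real.exp (-(19 / 9) * y) := by positivity
      linarith

/-- **Theorem.** Let `d ≥ 3`. There are `σ₀ > 0` and `K` such that for `0 < |σ| ≤ σ₀`, with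
probability at least `1 - exp(-|σ|^{-1/200})`: every spectral measure of a vector `g` supported on a
finite set `B` in the box of radius `exp(|σ|^{-1/200})` gives mass at most
`K log(1/|σ|) s (∑_B |g|)²` to the interval `[E - s, E + s]`, for all energies `E` and all
`s ≥ |σ|^{19/9}`; and every square summable solution `u` of `H_σ u = E u`, `E` real, satisfies
`|u(a)|² ≤ K log(1/|σ|) |σ|^{19/9} ∑ |u|²` at all sites `a` of the box. -/
theorem result (d : ℕ) (hd : 3 ≤ d) :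
    ∃ σ₀ K : ℝ, 0 < σ₀ ∧ 0 < K ∧ ∀ σ : ℝ, 0 < |σ| → |σ| ≤ σ₀ →
      ∃ G : Set ((Fin d → ℤ) → ℝ), MeasurableSet G ∧
        1 - Real.exp (-|σ| ^ (-(1 / 200) : ℝ)) ≤
          (Measure.infinitePi fun _ : Fin d → ℤ => gaussianReal 0 1).real G ∧
        ∀ ξ ∈ G,
          (∀ (g : (Fin d → ℤ) → ℂ) (B : Finset (Fin d → ℤ)),
            (∀ a ∈ B, ‖a‖ ≤ Real.exp (|σ| ^ (-(1 / 200) : ℝ))) → (∀ a, a ∉ B → g a = 0) →
            ∀ μ : Measure ℝ, IsSpectralMeasure (H σ ξ) g μ →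
            ∀ E s : ℝ, |σ| ^ (19 / 9 : ℝ) ≤ s →
            μ.real (Set.Icc (E - s) (E + s)) ≤
              K * Real.log (1 / |σ|) * s * (∑ a ∈ B, ‖g a‖) ^ 2) ∧
          (∀ (E : ℝ) (u : (Fin d → ℤ) → ℂ), SqSummable u →
            (∀ x, H σ ξ u x = (E : ℂ) * u x) →
            ∀ a : Fin d → ℤ, ‖a‖ ≤ Real.exp (|σ| ^ (-(1 / 200) : ℝ)) →
            ‖u a‖ ^ 2 ≤ K * Real.log (1 / |σ|) * |σ| ^ (19 / 9 : ℝ) * ∑' x, ‖u x‖ ^ 2) := by
  obtain ⟨σ₀, K, h0, hK, h⟩ := pos_case d hd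
  refine ⟨σ₀, K, h0, hK, fun σ hσ hσ0 => ?_⟩
  rcases lt_or_gt_of_ne (abs_pos.1 hσ) with hs | hs
  · obtain ⟨G, hG, hP, hb⟩ := h (-σ) (by linarith) (by rwa [abs_of_neg hs] at hσ0)
    have hm : Measurable fun (ξ : (Fin d → ℤ) → ℝ) (x : Fin d → ℤ) => -ξ x := by fun_prop
    refine ⟨(fun ξ x => -ξ x) ⁻¹' G, hm hG, ?_, fun ξ hξ => flat_neg σ K ξ (hb _ hξ)⟩
    have h1 : (law d).real ((fun ξ x => -ξ x) ⁻¹' G) = (law d).real G := by
      conv_rhs => rw [← law_neg d]
      rw [map_measureReal_apply hm hG]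
    rw [abs_neg] at hP
    rw [← h1] at hP
    exact hP
  · obtain ⟨G, hG, hP, hb⟩ := h σ hs (by rwa [abs_of_pos hs] at hσ0)
    exact ⟨G, hG, hP, hb⟩

end Pool.Agent.Results.MP_1906c1_mp.BeyondKineticScale
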