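import Pool.Agent.T2h98.KU.All

/-!
# Gaussian disorder: the Kubo-Greenwood formula gives the Boltzmann conductivity, with the frequency
# dependence of Drude, at energy resolutions far below the inverse kinetic time `σ²`

`H_σ = Δ + σ V` on the torus `(ℤ/L)^d`, `d ≥ 3`, iid standard Gaussian `V`: the Hamiltonian of Q1.

`L^{-d} ∑_{a,b} ⟨u_b, v_j u_a⟩ ⟨u_a, v_i u_b⟩ δ_ε(E_a - E) δ_ε(E_b - E - ν σ²)` is the Kubo-Greenwood
expression for the conductivity per volume at energy `E` and frequency `ν σ²` (`u_a`, `E_a` the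
eigenvectors and eigenvalues, `v_i = i[Δ, x_i]` the velocity). The Drude peak has width of order `σ²`,
the inverse of the kinetic time; here the delta functions are broadened to
`|σ|^{2+h} ≤ ε ≤ σ²`, every `h < 1/3` for `d = 3`, every `h < 2/3` for `d ≥ 4`, so that the coherence of
the motion for times up to `|σ|^{-2-h}`, much longer than the kinetic time, is probed. For the tori
`|σ|^{-2-a} ≤ L ≤ |σ|^{-b}`, any `a > 0` and any `b`, we show that `σ²` times the expression converges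
in probability, uniformly in the energy (where the density of states `n` is at least `c > 0`) and the
frequency, to `2 γ w(E) / (π (ν² + 4 γ²))`, `γ = π n(E) + ε/σ²`, and to `0` for `i ≠ j`. At `ν = 0` and
`ε ≪ σ²` this is the Boltzmann conductivity `w / (2 π² n)`: the corrections of weak localization do not
change the leading order of the conductivity. All orthonormal bases of eigenvectors are allowed.
-/

set_option autoImplicit false

open scoped BigOperators Topology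
open MeasureTheory ProbabilityTheory Filter

namespace Pool.Agent.T2h98.Kept.BoltzmannConductivity

/-- the Hamiltonian on the torus `(ℤ/L)^d` -/
noncomputable def HL {d L : ℕ} (σ : ℝ) (V : (Fin d → ZMod L) → ℝ) (u : (Fin d → ZMod L) → ℂ)
    (x : Fin d → ZMod L) : ℂ :=
  ∑ i : Fin d, (u (x + Pi.single i 1) + u (x - Pi.single i 1)) + ((σ * V x : ℝ) : ℂ) * u x

/-- `u` is an orthonormal basis of eigenvectors (indexed by the points of the torus), `E` are the
eigenvalues -/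
def IsEigenbasis {d L : ℕ} [NeZero L] (σ : ℝ) (V : (Fin d → ZMod L) → ℝ)
    (u : (Fin d → ZMod L) → (Fin d → ZMod L) → ℂ) (E : (Fin d → ZMod L) → ℝ) : Prop :=
  (∀ a x, HL σ V (u a) x = (E a : ℂ) * u a x) ∧
  ∀ a b, ∑ x, (starRingEnd ℂ) (u a x) * u b x = if a = b then 1 else 0

/-- the velocity `v_i = i [Δ, x_i]` -/
noncomputable def vel {d L : ℕ} (i : Fin d) (u : (Fin d → ZMod L) → ℂ) (x : Fin d → ZMod L) : ℂ :=
  Complex.I * (u (x + Pi.single i 1) - u (x - Pi.single i 1))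

/-- the matrix element `⟨u, v_i w⟩` -/
noncomputable def velElem {d L : ℕ} [NeZero L] (i : Fin d) (u w : (Fin d → ZMod L) → ℂ) : ℂ :=
  ∑ x, (starRingEnd ℂ) (u x) * vel i w x

/-- the Lorentz function of width `ε` -/
noncomputable def lorentz (ε t : ℝ) : ℝ := ε / (Real.pi * (t ^ 2 + ε ^ 2))

/-- the Kubo-Greenwood expression
`L^{-d} ∑_{a,b} ⟨u_b, v_j u_a⟩ ⟨u_a, v_i u_b⟩ δ_ε(E_a - E) δ_ε(E_b - E')`, `δ_ε` the Lorentz function
of width `ε` -/
noncomputable def kubo {d L : ℕ} [NeZero L] (ε E E' : ℝ)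
    (u : (Fin d → ZMod L) → (Fin d → ZMod L) → ℂ) (ev : (Fin d → ZMod L) → ℝ) (j i : Fin d) : ℂ :=
  ((L : ℂ) ^ d)⁻¹ * ∑ a, ∑ b, velElem j (u b) (u a) * velElem i (u a) (u b) *
    ((lorentz ε (ev a - E) * lorentz ε (ev b - E') : ℝ) : ℂ)

/-- `n` is the density of states of `Δ` and `w` the density of the squared velocity: for all
continuous `f` and all `j`, `∫ f n` and `∫ f w` are the means over the momenta `k ∈ [-π, π]^d` of
`f(2 ∑_i cos k_i)` and of `4 sin² k_j f(2 ∑_i cos k_i)` -/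
structure IsDensities (d : ℕ) (n w : ℝ → ℝ) : Prop where
  cn : Continuous n
  cw : Continuous w
  nonneg : ∀ E, 0 ≤ n E ∧ 0 ≤ w E
  supp : ∀ E : ℝ, 2 * (d : ℝ) ≤ |E| → n E = 0 ∧ w E = 0
  mean_n : ∀ f : ℝ → ℝ, Continuous f → ∫ E : ℝ, f E * n E =
    (2 * Real.pi)⁻¹ ^ d * ∫ k in Set.Icc (fun _ : Fin d => -Real.pi) (fun _ => Real.pi),
      f (∑ i, 2 * Real.cos (k i))
  mean_w : ∀ f : ℝ → ℝ, Continuous f → ∀ j : Fin d, ∫ E : ℝ, f E * w E =
    (2 * Real.pi)⁻¹ ^ d * ∫ k in Set.Icc (fun _ : Fin d => -Real.pi) (fun _ => Real.pi),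
      4 * Real.sin (k j) ^ 2 * f (∑ i, 2 * Real.cos (k i))

/-- Drude's formula: `2 γ w / (π (ν² + 4 γ²))`, for `i = j`, and `0` for `i ≠ j` -/
noncomputable def drude {d : ℕ} (w γ ν : ℝ) (j i : Fin d) : ℝ :=
  if j = i then 2 * γ * w / (Real.pi * (ν ^ 2 + 4 * γ ^ 2)) else 0

open Pool.Agent.T2h98.KU Pool.Agent.T2h98.QD in
theorem kubo_eq (hE : T_KEIG) (hV : T_KV) {d L : ℕ} [NeZero L] (j i : Fin d) (E E' ε σ : ℝ)
    (hε : 0 < ε) (V : (Fin d → ZMod L) → ℝ) (u : (Fin d → ZMod L) → (Fin d → ZMod L) → ℂ)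
    (ev : (Fin d → ZMod L) → ℝ) (hu : IsEigenbasis σ V u ev) :
    kubo ε E E' u ev j i = (((Real.pi ^ 2 : ℝ)) : ℂ)⁻¹ * Fq j i E E' ε σ V := by
  have h1 := hE d L j i E E' ε σ hε V u ev (fun a => by
      funext x
      rw [Pool.Agent.T2h98.QD.Cmp.HT_mulVec, Pi.smul_apply, smul_eq_mul]
      exact hu.1 a x) (fun a c => hu.2 a c)
  rw [h1]
  have h2 : ∀ (i : Fin d) (a c : Fin d → ZMod L),
      star (u c) ⬝ᵥ (vv i).mulVec (u a) = velElem i (u c) (u a) := by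
    intro i a c
    unfold velElem vel
    rw [dotProduct]
    refine Finset.sum_congr rfl fun x _ => ?_
    obtain ⟨-, -, -, -, -, -, -, -, h9⟩ := hV d L i
    rw [h9 (u a) x]
    rfl
  have hN : ((Pool.Agent.W788.MFP.Four.NN d L : ℝ) : ℂ) = (L : ℂ) ^ d := by
    unfold Pool.Agent.W788.MFP.Four.NN
    push_cast
    rfl
  unfold kubo
  rw [hN, mul_left_comm]
  congr 1
  rw [Finset.mul_sum]
  refine Finset.sum_congr rfl fun a _ => ?_
  rw [Finset.mul_sum]
  refine Finset.sum_congr rfl fun c _ => ?_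
  rw [h2, h2]
  have hl : ∀ t : ℝ, lorentz ε t = Real.pi⁻¹ * (ε / (t ^ 2 + ε ^ 2)) := by
    intro t
    unfold lorentz
    rw [mul_comm Real.pi, div_mul_eq_div_div, div_eq_inv_mul (_ / _)]
  rw [hl, hl]
  have hp : ((Real.pi : ℝ) : ℂ) ≠ 0 := by exact_mod_cast Real.pi_ne_zero
  push_cast
  field_simp

/-- The Drude formula for the conductivity of the Hamiltonian of Q1, beyond the kinetic scale. -/
theorem result (d : ℕ) (hd : 3 ≤ d) :
    ∃ n w : ℝ → ℝ, IsDensities d n w ∧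
      ∀ h a b c A η : ℝ, 0 < h → h < (if d = 3 then 1 / 3 else 2 / 3) → 0 < a → 0 < c → 0 < A →
      0 < η → ∃ σ₀ : ℝ, 0 < σ₀ ∧ ∀ σ : ℝ, 0 < |σ| → |σ| ≤ σ₀ → ∀ (L : ℕ) [NeZero L],
      |σ| ^ (-2 - a) ≤ (L : ℝ) → (L : ℝ) ≤ |σ| ^ (-b) → ∀ ε : ℝ, |σ| ^ (2 + h) ≤ ε → ε ≤ σ ^ 2 →
      ∀ E ν : ℝ, c ≤ n E → |ν| ≤ A → ∀ j i : Fin d,
      ∃ Ω : Set ((Fin d → ZMod L) → ℝ), MeasurableSet Ω ∧
        1 - η ≤ (Measure.pi fun _ : Fin d → ZMod L => gaussianReal 0 1).real Ω ∧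
        ∀ V ∈ Ω, ∀ (u : (Fin d → ZMod L) → (Fin d → ZMod L) → ℂ) (ev : (Fin d → ZMod L) → ℝ),
          IsEigenbasis σ V u ev →
          ‖(σ : ℂ) ^ 2 * kubo ε E (E + ν * σ ^ 2) u ev j i -
            (drude (w E) (Real.pi * n E + ε / σ ^ 2) ν j i : ℂ)‖ ≤ η := by
  have hK := Pool.Agent.T2h98.KU.kfinA
  have hE := Pool.Agent.T2h98.KU.keigA
  have hV := Pool.Agent.T2h98.KU.kv
  refine ⟨Pool.Agent.T2h98.QD.dn d, Pool.Agent.T2h98.QD.dw d, ?_, ?_⟩
  · obtain ⟨c1, c2, c3, c4, c5, c6⟩ := Pool.Agent.T2h98.QD.U.dosF d hd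
    exact ⟨c1, c2, fun E => ⟨c3 E, c4 E⟩, c5, fun f hf => (c6 f hf).1.symm,
      fun f hf j => ((c6 f hf).2 j).symm⟩
  intro h a b c A η h0 h1 ha hc hA hη
  obtain ⟨κ, hκ⟩ := exists_nat_ge b
  have h1' : h < (if d = 3 then 1 else 2) / 3 := by
    split_ifs with hd3
    · simpa [hd3] using h1
    · simpa [hd3] using h1
  obtain ⟨σ₁, h0', hev⟩ := (mem_nhdsGT_iff_exists_Ioc_subset).1
    ((hK κ d hd h h0 h1' a ha c A η hc hA hη).and (Ioo_mem_nhdsGT (zero_lt_one (α := ℝ))))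
  have h0'' : (0 : ℝ) < σ₁ := h0'
  have key : ∀ σ : ℝ, 0 < σ → σ ≤ σ₁ → ∀ (L : ℕ) [NeZero L],
      σ ^ (-2 - a) ≤ (L : ℝ) → (L : ℝ) ≤ σ ^ (-b) → ∀ ε : ℝ, σ ^ (2 + h) ≤ ε → ε ≤ σ ^ 2 →
      ∀ E ν : ℝ, c ≤ Pool.Agent.T2h98.QD.dn d E → |ν| ≤ A → ∀ j i : Fin d,
      ∃ Ω : Set ((Fin d → ZMod L) → ℝ), MeasurableSet Ω ∧
        1 - η ≤ (Measure.pi fun _ : Fin d → ZMod L => gaussianReal 0 1).real Ω ∧
        ∀ V ∈ Ω, ∀ (u : (Fin d → ZMod L) → (Fin d → ZMod L) → ℂ) (ev : (Fin d → ZMod L) → ℝ),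
          IsEigenbasis σ V u ev →
          ‖(σ : ℂ) ^ 2 * kubo ε E (E + ν * σ ^ 2) u ev j i -
            (drude (Pool.Agent.T2h98.QD.dw d E)
              (Real.pi * Pool.Agent.T2h98.QD.dn d E + ε / σ ^ 2) ν j i : ℂ)‖ ≤ η := by
    intro σ hσ hσ1 L _ hL1 hL2 ε hε1 hε2 E ν hE1 hν j i
    obtain ⟨hmain, hs1⟩ := hev ⟨hσ, hσ1⟩
    have hL3 : (L : ℝ) ≤ σ ^ (-(κ : ℝ)) := hL2.trans
      (Real.rpow_le_rpow_of_exponent_ge hσ hs1.2.le (by linarith))
    have hε : 0 < ε := lt_of_lt_of_le (Real.rpow_pos_of_pos hσ _) hε1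
    obtain ⟨Ω, k1, k2, k3⟩ := hmain L hL1 hL3 ε hε1 hε2 E ν hE1 hν j i
    refine ⟨Ω, k1, k2, fun V hV' u ev hu => ?_⟩
    rw [kubo_eq hE hV j i E _ ε σ hε V u ev hu]
    have h3 := k3 V hV'
    have hpi : (0 : ℝ) < Real.pi := Real.pi_pos
    have hpi2 : (1 : ℝ) ≤ Real.pi ^ 2 := by nlinarith [Real.pi_gt_three]
    have h4 : (σ : ℂ) ^ 2 * (((Real.pi ^ 2 : ℝ) : ℂ)⁻¹ *
          Pool.Agent.T2h98.KU.Fq j i E (E + ν * σ ^ 2) ε σ V) -
        (drude (Pool.Agent.T2h98.QD.dw d E)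
          (Real.pi * Pool.Agent.T2h98.QD.dn d E + ε / σ ^ 2) ν j i : ℂ) =
        ((Real.pi ^ 2 : ℝ) : ℂ)⁻¹ * ((σ : ℂ) ^ 2 *
          Pool.Agent.T2h98.KU.Fq j i E (E + ν * σ ^ 2) ε σ V -
      (if j = i then ((2 * Real.pi * (Real.pi * Pool.Agent.T2h98.QD.dn d E + ε / σ ^ 2) *
        Pool.Agent.T2h98.QD.dw d E /
        (ν ^ 2 + 4 * (Real.pi * Pool.Agent.T2h98.QD.dn d E + ε / σ ^ 2) ^ 2) : ℝ) : ℂ)
        else 0)) := by
      unfold drude
      have hp : ((Real.pi : ℝ) : ℂ) ≠ 0 := by exact_mod_cast Real.pi_ne_zero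
      split_ifs with hji
      · rw [mul_sub]
        congr 1
        · ring
        · rw [← Complex.ofReal_inv, ← Complex.ofReal_mul]
          congr 1
          have hp' : Real.pi ≠ 0 := Real.pi_ne_zero
          by_cases hz : ν ^ 2 + 4 * (Real.pi * Pool.Agent.T2h98.QD.dn d E + ε / σ ^ 2) ^ 2 = 0
          · rw [hz]; simp
          · field_simp
      · simp only [Complex.ofReal_zero, sub_zero]
        ring
    rw [h4, norm_mul, norm_inv, Complex.norm_real, Real.norm_eq_abs, abs_of_pos (by positivity)]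
    calc (Real.pi ^ 2)⁻¹ * _ ≤ 1 * η := by
          refine mul_le_mul (inv_le_one_of_one_le₀ hpi2) h3 (norm_nonneg _) zero_le_one
      _ = η := one_mul _
  refine ⟨σ₁, h0'', fun σ hσ hσ0 L _ hL1 hL2 ε hε1 hε2 E ν hE1 hν j i => ?_⟩
  rcases lt_or_gt_of_ne (abs_pos.1 hσ) with hs | hs
  · rw [abs_of_neg hs] at hσ hσ0 hL1 hL2 hε1
    have e2 : (-σ) ^ 2 = σ ^ 2 := by ring
    obtain ⟨Ω, hΩ, hP, hb⟩ := key (-σ) hσ hσ0 L hL1 hL2 ε hε1 (by rw [e2]; exact hε2) E ν hE1 hν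
      j i
    have hm : Measurable fun (V : (Fin d → ZMod L) → ℝ) (x : Fin d → ZMod L) => -V x := by
      fun_prop
    refine ⟨(fun V x => -V x) ⁻¹' Ω, hm hΩ, ?_, fun V hV' u ev hu => ?_⟩
    · have h1 : (Measure.pi fun _ : Fin d → ZMod L => gaussianReal 0 1).real
          ((fun V x => -V x) ⁻¹' Ω) =
          (Measure.pi fun _ : Fin d → ZMod L => gaussianReal 0 1).real Ω := by
        have h2 := Pool.Agent.T2h98.QD.W.gp_neg (Fin d → ZMod L)
        have h3 : (Measure.pi fun _ : Fin d → ZMod L => gaussianReal 0 1).map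
            (fun V x => -V x) = Measure.pi fun _ : Fin d → ZMod L => gaussianReal 0 1 := h2
        conv_rhs => rw [← h3]
        rw [map_measureReal_apply hm hΩ]
      rw [h1]
      exact hP
    · have h5 := hb _ hV' u ev ⟨fun a x => ?_, hu.2⟩
      · rw [Complex.ofReal_neg, neg_sq, e2] at h5
        exact h5
      · rw [← hu.1 a x]
        unfold HL
        rw [neg_mul_neg]
  · rw [abs_of_pos hs] at hσ0 hL1 hL2 hε1
    exact key σ hs hσ0 L hL1 hL2 ε hε1 hε2 E ν hE1 hν j i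

end Pool.Agent.T2h98.Kept.BoltzmannConductivity

/-
Former claim of MP_1906c1_mp.BoltzmannConductivity:
Proves: Let d >= 3, 0 < h < 1/3 if d = 3, 0 < h < 2/3 if d >= 4, a > 0, b real, c, A, eta > 0; V iid standard Gaussian on the torus (Z/L)^d, H = nearest-neighbour sum + sigma V. There is s0 > 0 such that for 0 < |sigma| <= s0, |sigma|^(-2-a) <= L <= |sigma|^(-b), |sigma|^(2+h) <= eps <= sigma^2, n(E) >= c, |nu| <= A and all i, j, with probability >= 1 - eta, for every orthonormal eigenbasis u_a, E_a of H, sigma^2 L^(-d) sum_{a,b} <u_b, v_j u_a><u_a, v_i u_b> D(E_a - E) D(E_b - E - nu sigma^2), D the Lorentz function of width eps, differs by at most eta from 2 g w(E)/(pi (nu^2 + 4 g^2)), g = pi n(E) + eps/sigma^2, if i = j, and from 0 if i != j.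
Definitions: vel i u (x) = i (u(x+e_i) - u(x-e_i)); lorentz eps t = eps/(pi (t^2 + eps^2)); IsDensities = n, w continuous, >= 0, zero for |E| >= 2d, int f n and int f w are the momentum means of f(2 sum_i cos k_i) and 4 sin(k_j)^2 f(2 sum_i cos k_i).
Relation: Partial result towards (2b), exact operator of Q1: Kubo-Greenwood conductivity = Boltzmann value with Drude's frequency law, with broadening a power below the kinetic scale sigma^2, in probability. It does not prove continuous spectrum. Earlier: kinetic-scale limits (Spohn, Erdos-Yau, Chen), Erdos-Salmhofer-Yau (mean densities, sigma^(-2-kappa)), Klein-Lenoble-Mueller (localized regime), Black-Drogin-Hernandez 2025 (exponents not remembered); no rigorous conductivity formula of this kind is known to us.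

-/
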