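import Pool.Agent.T2h98.QD.Fin

/-!
# Gaussian disorder: spreading of the time evolution beyond the mean free path

`H_σ = Δ + σ ξ` on `ℤ^d`, `d ≥ 3`, `(Δψ)(x) = ∑_{|y-x|=1} ψ(y)`, iid standard Gaussian `ξ`. Fix
`0 ≤ a < (d-1)/(7d+2)` and `b > 2a`. There are `σ₀ > 0` and `c > 0`, depending on `d, a, b` only,
such that for `0 < |σ| ≤ σ₀`, for every `ξ` the evolution `ψ_t = exp(-i t H_σ) δ_0` exists and is
unique, and for all `T ≥ |σ|^{-2-b}` and all coordinates `i`,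
`E [ T⁻¹ ∫_0^∞ exp(-t/T) ∑_{|x_i| ≤ |σ|^{-2-a}} |ψ_t(x)|² dt ] ≤ |σ|^c`.

The mean free path is of order `σ^{-2}`; in a diffusive motion the distance travelled up to time
`|σ|^{-2-b}` is of order `|σ|^{-2-b/2}`.

The library is in `Pool/Agent/T2h98/QD`: a regularized resolvent
`(Δ - E + σ (filtered potential) - i η |Δ - E - i δ|)⁻¹` is studied with the Gaussian Poincare
inequality and integration by parts, which give an approximate ladder equation for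
`E ∑_y e^{i q (y-x)} |G(x,y)|²` at all momenta `q`; a bound on the gap of the ladder equation shows
that the weight at distance `≤ |σ|^{-2-a}` is small; spectral projections are bounded by the
regularized resolvent; finally the torus is compared with the lattice.
-/

set_option autoImplicit false

open scoped BigOperators
open MeasureTheory ProbabilityTheory

namespace Pool.Agent.T2h98.Kept.DiffusiveSpreading

/-- `(H_σ ψ)(x) = ∑_{|y-x|=1} ψ(y) + σ ξ(x) ψ(x)` -/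
noncomputable def H {d : ℕ} (σ : ℝ) (ξ : (Fin d → ℤ) → ℝ) (ψ : (Fin d → ℤ) → ℂ)
    (x : Fin d → ℤ) : ℂ :=
  ∑ i : Fin d, (ψ (x + Pi.single i 1) + ψ (x - Pi.single i 1)) + ((σ * ξ x : ℝ) : ℂ) * ψ x

/-- `ψ_t = exp(-i t H_σ) δ_0`: `i ∂_t ψ_t(x) = (H_σ ψ_t)(x)` for all `t` and `x`, `ψ_0 = δ_0` and
`∑_x |ψ_t(x)|² = 1` for all `t` -/
structure IsEvolution {d : ℕ} (σ : ℝ) (ξ : (Fin d → ℤ) → ℝ) (ψ : ℝ → (Fin d → ℤ) → ℂ) :
    Prop where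
  init : ψ 0 = Pi.single 0 1
  deriv : ∀ (t : ℝ) (x : Fin d → ℤ), HasDerivAt (fun s => ψ s x) (-(Complex.I * H σ ξ (ψ t) x)) t
  mass : ∀ t, HasSum (fun x => ‖ψ t x‖ ^ 2) 1

/-- `T⁻¹ ∫_0^∞ exp(-t/T) ∑_{|x_i| ≤ R} |ψ_t(x)|² dt` -/
noncomputable def slabMean {d : ℕ} (i : Fin d) (R T : ℝ) (ψ : ℝ → (Fin d → ℤ) → ℂ) : ℝ :=
  T⁻¹ * ∫ t in Set.Ioi (0 : ℝ), Real.exp (-(t / T)) *
    ∑' x : Fin d → ℤ, if |(x i : ℝ)| ≤ R then ‖ψ t x‖ ^ 2 else 0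

theorem evol_iff {d : ℕ} (σ : ℝ) (ξ : (Fin d → ℤ) → ℝ) (ψ : ℝ → (Fin d → ℤ) → ℂ) :
    IsEvolution σ ξ ψ ↔ Pool.Agent.T2h98.QD.Evol (fun x => σ * ξ x) ψ :=
  ⟨fun h => ⟨h.init, h.deriv, h.mass⟩, fun h => ⟨h.init, h.deriv, h.mass⟩⟩

theorem evol_neg {d : ℕ} (σ : ℝ) (ξ : (Fin d → ℤ) → ℝ) (ψ : ℝ → (Fin d → ℤ) → ℂ)
    (h : IsEvolution σ (fun x => -ξ x) ψ) : IsEvolution (-σ) ξ ψ := by
  rw [evol_iff] at h ⊢
  have h1 : (fun x => -σ * ξ x) = fun x => σ * -ξ x := by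
    funext x
    ring
  rw [h1]
  exact h

theorem slab_meas {d : ℕ} (σ : ℝ) (hσ : σ ≠ 0) (Ψ : ((Fin d → ℤ) → ℝ) → ℝ → (Fin d → ℤ) → ℂ)
    (hΨ : ∀ ξ, IsEvolution σ ξ (Ψ ξ)) (i : Fin d) (R T : ℝ) :
    Measurable fun ξ => slabMean i R T (Ψ ξ) := by
  have hc := Pool.Agent.T2h98.QD.meas d (fun v => Ψ fun x => σ⁻¹ * v x) (fun v => by
    have h1 := (evol_iff _ _ _).1 (hΨ fun x => σ⁻¹ * v x)
    have h2 : (fun x => σ * (σ⁻¹ * v x)) = v := by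
      funext x
      field_simp
    rwa [h2] at h1)
  refine Pool.Agent.T2h98.QD.mm_meas (σ := σ) (fun x => ?_) (fun ξ => (evol_iff _ _ _).1 (hΨ ξ))
    i R T
  have h1 : (fun p : ((Fin d → ℤ) → ℝ) × ℝ => Ψ p.1 p.2 x) =
      (fun p : ((Fin d → ℤ) → ℝ) × ℝ => Ψ (fun x => σ⁻¹ * p.1 x) p.2 x) ∘
        fun p : ((Fin d → ℤ) → ℝ) × ℝ => ((fun x => σ * p.1 x : (Fin d → ℤ) → ℝ), p.2) := by
    funext p
    have h2 : (fun x => σ⁻¹ * (σ * p.1 x)) = p.1 := by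
      funext x
      field_simp
    simp only [Function.comp_apply, h2]
  rw [h1]
  exact (hc x).comp (by fun_prop)

/-- **Theorem.** Let `d ≥ 3`, `0 ≤ a < (d-1)/(7d+2)` and `b > 2a`. There are `σ₀ > 0` and `c > 0`
such that for all real `σ` with `0 < |σ| ≤ σ₀`: for every `ξ` there is exactly one evolution
`ψ_t = exp(-i t H_σ) δ_0`; and if `Ψ ξ` is the evolution with potential `σ ξ`, then for every
coordinate `i` and every `T ≥ |σ|^{-2-b}` the Abel mean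
`T⁻¹ ∫_0^∞ exp(-t/T) ∑_{|x_i| ≤ |σ|^{-2-a}} |ψ_t(x)|² dt` is a measurable function of `ξ` with
values in `[0, 1]`, and its expectation is at most `|σ|^c`. -/
theorem result (d : ℕ) (hd : 3 ≤ d) (a b : ℝ) (ha : 0 ≤ a)
    (had : a < ((d : ℝ) - 1) / (7 * d + 2)) (hab : 2 * a < b) :
    ∃ σ₀ c : ℝ, 0 < σ₀ ∧ 0 < c ∧ ∀ σ : ℝ, 0 < |σ| → |σ| ≤ σ₀ →
      (∀ ξ : (Fin d → ℤ) → ℝ, ∃! ψ : ℝ → (Fin d → ℤ) → ℂ, IsEvolution σ ξ ψ) ∧
      ∀ Ψ : ((Fin d → ℤ) → ℝ) → ℝ → (Fin d → ℤ) → ℂ, (∀ ξ, IsEvolution σ ξ (Ψ ξ)) →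
        ∀ (i : Fin d) (T : ℝ), |σ| ^ (-2 - b) ≤ T →
          Measurable (fun ξ => slabMean i (|σ| ^ (-2 - a)) T (Ψ ξ)) ∧
          (∀ ξ, 0 ≤ slabMean i (|σ| ^ (-2 - a)) T (Ψ ξ) ∧
            slabMean i (|σ| ^ (-2 - a)) T (Ψ ξ) ≤ 1) ∧
          ∫ ξ, slabMean i (|σ| ^ (-2 - a)) T (Ψ ξ)
            ∂(Measure.infinitePi fun _ : Fin d → ℤ => gaussianReal 0 1) ≤ |σ| ^ c := by
  obtain ⟨σ₀, c, h0, hc, h⟩ := Pool.Agent.T2h98.QD.pos_case d hd a b ha had hab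
  refine ⟨σ₀, c, h0, hc, fun σ hσ hσ0 => ⟨fun ξ => ?_, fun Ψ hΨ i T hT => ?_⟩⟩
  · have h1 := Pool.Agent.T2h98.QD.exi d (fun x => σ * ξ x)
    simpa only [evol_iff] using h1
  · have hT0 : 0 < T := (Real.rpow_pos_of_pos hσ _).trans_le hT
    refine ⟨slab_meas σ (abs_pos.1 hσ) Ψ hΨ i _ T, fun ξ =>
      ⟨Pool.Agent.T2h98.QD.mm_nonneg i _ T hT0 (Ψ ξ),
        Pool.Agent.T2h98.QD.mm_le_one ((evol_iff _ _ _).1 (hΨ ξ)) i _ T hT0⟩, ?_⟩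
    rcases lt_or_gt_of_ne (abs_pos.1 hσ) with hs | hs
    · rw [abs_of_neg hs] at hσ hσ0 hT ⊢
      have hΨ' : ∀ ξ, IsEvolution (-σ) ξ ((fun ξ => Ψ fun x => -ξ x) ξ) := fun ξ =>
        evol_neg σ ξ _ (hΨ fun x => -ξ x)
      have h1 := (h (-σ) hσ hσ0).1 (fun ξ => Ψ fun x => -ξ x)
        (fun ξ => (evol_iff _ _ _).1 (hΨ' ξ)) i T hT
      have hm : Measurable fun (ξ : (Fin d → ℤ) → ℝ) (x : Fin d → ℤ) => -ξ x := by fun_prop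
      refine le_trans (le_of_eq ?_) h1
      have h2 : (Measure.infinitePi fun _ : Fin d → ℤ => gaussianReal 0 1).map
          (fun (ξ : (Fin d → ℤ) → ℝ) (x : Fin d → ℤ) => -ξ x) =
          Measure.infinitePi fun _ : Fin d → ℤ => gaussianReal 0 1 :=
        Pool.Agent.T2h98.QD.law_neg d
      have h3 : ∀ F : ((Fin d → ℤ) → ℝ) → ℝ, Measurable F →
          ∫ ξ, F ξ ∂(Measure.infinitePi fun _ : Fin d → ℤ => gaussianReal 0 1) =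
          ∫ ξ, F (fun x => -ξ x) ∂(Measure.infinitePi fun _ : Fin d → ℤ => gaussianReal 0 1) := by
        intro F hF
        conv_lhs => rw [← h2]
        rw [integral_map hm.aemeasurable hF.aestronglyMeasurable]
      exact h3 _ (slab_meas σ hs.ne Ψ hΨ i _ T)
    · rw [abs_of_pos hs] at hσ0 hT ⊢
      exact (h σ hs hσ0).1 Ψ (fun ξ => (evol_iff _ _ _).1 (hΨ ξ)) i T hT

end Pool.Agent.T2h98.Kept.DiffusiveSpreading
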