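import Pool.Agent.T2h44.GU.Main

/-!
# Gaussian disorder: absolutely continuous spectrum would have infinite multiplicity

`H_σ = Δ + σ ξ` on `ℤ^d`, any `d ≥ 1`, `(Δψ)(x) = ∑_{|y-x|=1} ψ(y)`, iid standard Gaussian `ξ`, any
coupling `σ ≠ 0`. There is a Borel set `S` of energies, which does not depend on `ξ`, such that
almost surely
* the spectral measures of all vectors are singular on every Borel set which meets `S` in a null set;
* for every Borel set `B` which meets `S` in positive measure and all finitely many vectors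
  `f_1, ..., f_n` there is a vector, orthogonal to the cyclic subspace generated by
  `f_1, ..., f_n`, whose spectral measure is not singular on `B`.
So the absolutely continuous spectrum, if there is any, has infinite multiplicity everywhere: if (2b)
of Q1 holds with absolutely continuous spectrum then no finitely many vectors generate it.

The potential is unbounded, and so is the operator. The proof (`Pool/Agent/T2h44/GU`) works for all
laws which are not a point mass. It constructs the resolvent and the spectral measures of `Δ + V` for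
arbitrary real `V` (`Res`, `Spm`), and then follows the idea of the starting files
`Pool/Agent/TH980/IM` and `Pool/Agent/TH369/MU` on bounded potentials, some of whose lemmas on
measures are used: far away boundary values `G(0, x; E + i0)` tend to zero in probability, because
resampling one far away coordinate hardly changes `G(0, 0; E + i0)`.
-/

set_option autoImplicit false

open scoped BigOperators ENNReal
open MeasureTheory ProbabilityTheory

namespace Pool.Agent.Results.MP_1906c1_mp.InfiniteMultiplicity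

/-- `(H_σ ψ)(x) = ∑_{|y-x|=1} ψ(y) + σ ξ(x) ψ(x)` -/
noncomputable def H {d : ℕ} (σ : ℝ) (ξ : (Fin d → ℤ) → ℝ) (ψ : (Fin d → ℤ) → ℂ)
    (x : Fin d → ℤ) : ℂ :=
  ∑ i : Fin d, (ψ (x + Pi.single i 1) + ψ (x - Pi.single i 1)) + ((σ * ξ x : ℝ) : ℂ) * ψ x

/-- square summable functions -/
def SqSummable {d : ℕ} (u : (Fin d → ℤ) → ℂ) : Prop := Summable fun x => ‖u x‖ ^ 2

/-- `u` is the vector `(A - z)⁻¹ g` of `ℓ²(ℤ^d)` -/
def IsResolvent {d : ℕ} (A : ((Fin d → ℤ) → ℂ) → (Fin d → ℤ) → ℂ) (z : ℂ)
    (g u : (Fin d → ℤ) → ℂ) : Prop :=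
  SqSummable u ∧ ∀ x, A u x - z * u x = g x

/-- `m` is the spectral measure of the vector `g`: a finite measure whose Borel transform
`∫ (E - z)⁻¹ dm(E)` is `⟨g, (A - z)⁻¹ g⟩` for all non-real `z` -/
def IsSpectralMeasure {d : ℕ} (A : ((Fin d → ℤ) → ℂ) → (Fin d → ℤ) → ℂ) (g : (Fin d → ℤ) → ℂ)
    (m : Measure ℝ) : Prop :=
  IsFiniteMeasure m ∧ ∀ z : ℂ, z.im ≠ 0 → ∃ u : (Fin d → ℤ) → ℂ, IsResolvent A z g u ∧
    ∫ E : ℝ, ((E : ℂ) - z)⁻¹ ∂m = ∑' x, (starRingEnd ℂ) (g x) * u x

/-- `g` is orthogonal to the cyclic subspace generated by the vectors `f_1, ..., f_n`, the closed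
linear span of the vectors `(A - z)⁻¹ f_i`, `z` not real -/
def OrthCyclic {d n : ℕ} (A : ((Fin d → ℤ) → ℂ) → (Fin d → ℤ) → ℂ) (f : Fin n → (Fin d → ℤ) → ℂ)
    (g : (Fin d → ℤ) → ℂ) : Prop :=
  ∀ (i : Fin n) (z : ℂ), z.im ≠ 0 → ∀ u : (Fin d → ℤ) → ℂ, IsResolvent A z (f i) u →
    ∑' x, (starRingEnd ℂ) (g x) * u x = 0

/-- The law of iid standard Gaussian variables on `ℤ^d`. -/
noncomputable def law (d : ℕ) : Measure ((Fin d → ℤ) → ℝ) :=
  Measure.infinitePi fun _ => gaussianReal 0 1

open Pool.Agent.TH980.IM (Sd L2 BT)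
open Pool.Agent.T2h44.GU (RV Sol Ad_apply RV_sol RV_unique spm BT_spm)

theorem inner_tsum {d : ℕ} (a b : L2 d) :
    inner ℂ a b = ∑' x, (starRingEnd ℂ) (a x) * b x := by
  rw [lp.inner_eq_tsum]
  refine tsum_congr fun x => ?_
  rw [RCLike.inner_apply, mul_comm]

theorem mk_l2 {d : ℕ} {g : (Fin d → ℤ) → ℂ} (hg : SqSummable g) : ∃ G : L2 d, ∀ x, G x = g x := by
  refine ⟨⟨g, memℓp_gen ?_⟩, fun x => rfl⟩
  simpa [SqSummable] using hg

theorem sq_l2 {d : ℕ} (G : L2 d) : SqSummable fun x => G x := by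
  have := (lp.memℓp G).summable (by norm_num)
  simpa [SqSummable] using this

theorem res_iff {d : ℕ} (σ : ℝ) (ξ : (Fin d → ℤ) → ℝ) {z : ℂ} (hz : z.im ≠ 0) (G U : L2 d) :
    IsResolvent (H σ ξ) z (fun x => G x) (fun x => U x) ↔ U = RV (fun x => σ * ξ x) z G := by
  constructor
  · rintro ⟨-, h⟩
    apply RV_unique hz
    intro x
    rw [Ad_apply]
    exact h x
  · intro h
    refine ⟨sq_l2 U, fun x => ?_⟩
    have h1 := RV_sol (fun x => σ * ξ x) hz G x
    rw [← h, Ad_apply] at h1
    exact h1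

theorem res_eq {d : ℕ} {σ : ℝ} {ξ : (Fin d → ℤ) → ℝ} {z : ℂ} (hz : z.im ≠ 0) {g : (Fin d → ℤ) → ℂ}
    {G : L2 d} (hG : ∀ x, G x = g x) {u : (Fin d → ℤ) → ℂ} (hu : IsResolvent (H σ ξ) z g u) (x : Fin d → ℤ) :
    u x = RV (fun x => σ * ξ x) z G x := by
  obtain ⟨U, hU⟩ := mk_l2 hu.1
  have e1 : g = fun x => G x := funext fun x => (hG x).symm
  have e2 : u = fun x => U x := funext fun x => (hU x).symm
  rw [e1, e2] at hu
  rw [← (res_iff σ ξ hz G U).1 hu, hU]

theorem res_exists {d : ℕ} (σ : ℝ) (ξ : (Fin d → ℤ) → ℝ) {z : ℂ} (hz : z.im ≠ 0)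
    {g : (Fin d → ℤ) → ℂ} {G : L2 d} (hG : ∀ x, G x = g x) :
    IsResolvent (H σ ξ) z g fun x => RV (fun x => σ * ξ x) z G x := by
  have e1 : g = fun x => G x := funext fun x => (hG x).symm
  rw [e1]
  exact (res_iff σ ξ hz G _).2 rfl

theorem spec_iff {d : ℕ} (σ : ℝ) (ξ : (Fin d → ℤ) → ℝ) {g : (Fin d → ℤ) → ℂ} {G : L2 d}
    (hG : ∀ x, G x = g x) (m : Measure ℝ) : IsSpectralMeasure (H σ ξ) g m ↔ IsFiniteMeasure m ∧
      ∀ z : ℂ, z.im ≠ 0 → BT m z = inner ℂ G (RV (fun x => σ * ξ x) z G) := by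
  have hin : ∀ (z : ℂ), inner ℂ G (RV (fun x => σ * ξ x) z G) =
      ∑' x, (starRingEnd ℂ) (g x) * RV (fun x => σ * ξ x) z G x := by
    intro z
    rw [inner_tsum]
    exact tsum_congr fun x => by rw [hG]
  unfold IsSpectralMeasure
  refine and_congr_right fun _ => ⟨fun h z hz => ?_, fun h z hz => ?_⟩
  · obtain ⟨u, hu, h1⟩ := h z hz
    rw [hin]
    unfold BT
    rw [h1]
    exact tsum_congr fun x => by rw [res_eq hz hG hu x]
  · refine ⟨_, res_exists σ ξ hz hG, ?_⟩
    rw [← hin, ← h z hz]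
    rfl

/-- the Gaussian variables multiplied by `σ` -/
theorem law_map (d : ℕ) (σ : ℝ) : (law d).map (fun ξ x => σ * ξ x) =
    Measure.infinitePi fun _ : Fin d → ℤ => (gaussianReal 0 1).map fun t => σ * t := by
  unfold law
  exact Measure.infinitePi_map_pi (μ := fun _ : Fin d → ℤ => gaussianReal 0 1)
    (f := fun _ (s : ℝ) => σ * s) (fun _ => by fun_prop)

/-- **Theorem.** Let `d ≥ 1` and `σ ≠ 0`. There is a Borel set `S` such that almost surely the
following holds. For all square summable `g` and non-real `z` there is exactly one square summable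
`u` with `(H_σ - z) u = g`, and `g` has a spectral measure. For all Borel sets `B`:
(i) if `B ∩ S` has Lebesgue measure zero then all spectral measures are singular on `B`;
(ii) if `B ∩ S` has positive Lebesgue measure then for all finite families `f_1, ..., f_n` of square
summable vectors there is a square summable vector, orthogonal to the cyclic subspace generated by
`f_1, ..., f_n`, whose spectral measure is not singular on `B`. -/
theorem result (d : ℕ) (hd : 1 ≤ d) (σ : ℝ) (hσ : σ ≠ 0) :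
    ∃ S : Set ℝ, MeasurableSet S ∧ ∀ᵐ ξ ∂(law d),
      (∀ g : (Fin d → ℤ) → ℂ, SqSummable g → ∀ z : ℂ, z.im ≠ 0 →
        ∃! u : (Fin d → ℤ) → ℂ, IsResolvent (H σ ξ) z g u) ∧
      (∀ g : (Fin d → ℤ) → ℂ, SqSummable g → ∃ m : Measure ℝ, IsSpectralMeasure (H σ ξ) g m) ∧
      ∀ B : Set ℝ, MeasurableSet B →
        (volume (B ∩ S) = 0 → ∀ (g : (Fin d → ℤ) → ℂ) (m : Measure ℝ), SqSummable g →
          IsSpectralMeasure (H σ ξ) g m → (m.restrict B) ⟂ₘ volume) ∧
        (volume (B ∩ S) ≠ 0 → ∀ (n : ℕ) (f : Fin n → (Fin d → ℤ) → ℂ), (∀ i, SqSummable (f i)) →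
          ∃ (g : (Fin d → ℤ) → ℂ) (m : Measure ℝ), SqSummable g ∧ OrthCyclic (H σ ξ) f g ∧
            IsSpectralMeasure (H σ ξ) g m ∧ ¬ (m.restrict B) ⟂ₘ volume) := by
  have hP : IsProbabilityMeasure ((gaussianReal 0 1).map fun t => σ * t) :=
    Measure.isProbabilityMeasure_map (by fun_prop)
  have hν : ∀ r : ℝ, ((gaussianReal 0 1).map fun t => σ * t) {r} ≠ 1 := by
    intro r
    rw [Measure.map_apply (by fun_prop) (measurableSet_singleton r)]
    have h1 : (fun t => σ * t) ⁻¹' {r} = {r / σ} := by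
      ext t
      simp only [Set.mem_preimage, Set.mem_singleton_iff]
      rw [eq_div_iff hσ, mul_comm]
    rw [h1]
    have h2 : NullSingletonClass (gaussianReal 0 1) := nullSingletonClass_gaussianReal one_ne_zero
    rw [measure_singleton]
    exact zero_ne_one
  obtain ⟨S, hS, hmain⟩ := Pool.Agent.T2h44.GU.main hd hν
  refine ⟨S, hS, ?_⟩
  have e1 : Pool.Agent.TH980.IM.PR.PP (Sd d) ((gaussianReal 0 1).map fun t => σ * t) =
      (law d).map (fun ξ x => σ * ξ x) := (law_map d σ).symm
  rw [e1] at hmain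
  have hm : Measurable (fun (ξ : (Fin d → ℤ) → ℝ) x => σ * ξ x) := by fun_prop
  filter_upwards [ae_of_ae_map hm.aemeasurable hmain] with ξ hξ
  refine ⟨fun g hg z hz => ?_, fun g hg => ?_, fun B hB => ⟨fun hB0 g m hg hm => ?_,
    fun hB0 n f hf => ?_⟩⟩
  · obtain ⟨G, hG⟩ := mk_l2 hg
    refine ⟨_, res_exists σ ξ hz hG, fun u hu => ?_⟩
    funext x
    exact res_eq hz hG hu x
  · obtain ⟨G, hG⟩ := mk_l2 hg
    exact ⟨spm (fun x => σ * ξ x) G, (spec_iff σ ξ hG _).2 ⟨inferInstance, fun z hz => BT_spm _ _ hz⟩⟩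
  · obtain ⟨G, hG⟩ := mk_l2 hg
    obtain ⟨h1, h2⟩ := (spec_iff σ ξ hG m).1 hm
    exact (hξ B hB).1 hB0 G m h1 h2
  · choose F hF using fun i => mk_l2 (hf i)
    obtain ⟨G, h1, h2⟩ := (hξ B hB).2 hB0 n F
    refine ⟨fun x => G x, spm (fun x => σ * ξ x) G, sq_l2 G, fun i z hz u hu => ?_,
      (spec_iff σ ξ (fun x => rfl) _).2 ⟨inferInstance, fun z hz => BT_spm _ _ hz⟩, h2⟩
    have h3 := h1 i z hz
    rw [inner_tsum] at h3
    rw [← h3]
    exact tsum_congr fun x => by rw [res_eq hz (hF i) hu x]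

end Pool.Agent.Results.MP_1906c1_mp.InfiniteMultiplicity

/-
Claim file of this result (kept here because at most four hand-ins per problem are graded):

Proves: For every d ≥ 1 and σ ≠ 0 there is a Borel set S (not depending on ξ) such that almost surely all equations (H_σ − z)u = g, z non-real, g in ℓ², have exactly one solution u in ℓ², every g has a spectral measure, and for all Borel B: if |B ∩ S| = 0 then all spectral measures are singular on B; if |B ∩ S| > 0 then for all f_1, ..., f_n in ℓ² some g in ℓ² orthogonal to the cyclic subspace of f_1, ..., f_n has a spectral measure that is not singular on B.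
Definitions: H σ ξ: (Hψ)(x) = sum of ψ over the 2d neighbours + σξ(x)ψ(x); SqSummable: Σ|u(x)|² < ∞; IsResolvent A z g u: u is square summable and Au − zu = g; IsSpectralMeasure A g m: m is a finite measure with ∫(E−z)⁻¹dm(E) = ⟨g, (A−z)⁻¹g⟩ for all non-real z; OrthCyclic A f g: g is orthogonal to (A−z)⁻¹f_i for all i and non-real z; law d: iid standard Gaussian variables on ℤ^d.
Relation: Partial answer to Q1, on the absolutely continuous spectrum of (2b): for the operator of Q1, at every coupling, an absolutely continuous spectrum has infinite multiplicity on all of its essential support S, which is non-random. The starting results InfiniteMultiplicity of MP_562b47_mp and MP_d0f69c_mp treat bounded potentials; here operator and potential are unbounded. That (2b) has such spectrum is not shown.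
-/
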