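import Pool.Agent.T2h98.QD.Fin

/-!
# Gaussian disorder: localization lengths are larger than the mean free path

`H = Δ + σ V` on the torus `(ℤ/L)^d`, `d ≥ 3`, iid standard Gaussian `V`. Fix
`0 ≤ a < (d-1)/(7d+2)`. There are `σ₀ > 0` and `c > 0`, depending on `d, a` only, such that for
`0 < |σ| ≤ σ₀` and `L ≥ |σ|^{-7}`, with probability at least `1 - |σ|^c`, for every orthonormal
basis of eigenvectors all but at most `|σ|^c L^d` of the eigenvectors have mass at most `|σ|^c` in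
each of the slabs `x_i ∈ m + {0, …, ⌊|σ|^{-2-a}⌋}`. So the typical localization length is at least
`|σ|^{-2-a}`, which is much larger than the mean free path `σ^{-2}`, in all directions.

The library is in `Pool/Agent/T2h98/QD`: a regularized resolvent
`(Δ - E + σ (filtered potential) - i η |Δ - E - i δ|)⁻¹` is studied with the Gaussian Poincare
inequality and integration by parts, which give an approximate ladder equation for
`E ∑_y e^{i q (y-x)} |G(x,y)|²` at all momenta `q`; a bound on the gap of the ladder equation shows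
that the weight at distance `≤ |σ|^{-2-a}` is small; spectral projections are bounded by the
regularized resolvent.
-/

set_option autoImplicit false

open scoped BigOperators
open MeasureTheory ProbabilityTheory

namespace Pool.Agent.T2h98.Kept.LocalizationLength

/-- the Hamiltonian on the torus `(ℤ/L)^d` -/
noncomputable def HL {d L : ℕ} (σ : ℝ) (V : (Fin d → ZMod L) → ℝ) (u : (Fin d → ZMod L) → ℂ)
    (x : Fin d → ZMod L) : ℂ :=
  ∑ i : Fin d, (u (x + Pi.single i 1) + u (x - Pi.single i 1)) + ((σ * V x : ℝ) : ℂ) * u x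

/-- `u` is an orthonormal basis of eigenvectors (indexed by the points of the torus) -/
def IsEigenbasis {d L : ℕ} [NeZero L] (σ : ℝ) (V : (Fin d → ZMod L) → ℝ)
    (u : (Fin d → ZMod L) → (Fin d → ZMod L) → ℂ) : Prop :=
  (∀ j, ∃ E : ℝ, ∀ x, HL σ V (u j) x = (E : ℂ) * u j x) ∧
  ∀ j k, ∑ x, (starRingEnd ℂ) (u j x) * u k x = if j = k then 1 else 0

open Classical in
/-- the mass of `u` in the slab `x_i ∈ m + {0, 1, …, ⌊R⌋}` of the torus -/
noncomputable def slabMass {d L : ℕ} [NeZero L] (i : Fin d) (m : ZMod L) (R : ℝ)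
    (u : (Fin d → ZMod L) → ℂ) : ℝ :=
  ∑ x : Fin d → ZMod L, if ∃ r : ℕ, (r : ℝ) ≤ R ∧ x i = m + (r : ZMod L) then ‖u x‖ ^ 2 else 0

theorem spread_iff {d L : ℕ} [NeZero L] (σ R ε : ℝ) (V : (Fin d → ZMod L) → ℝ)
    (h : Pool.Agent.T2h98.QD.Spread R ε (Pool.Agent.T2h98.QD.HT (d := d) (L := L) σ V))
    (u : (Fin d → ZMod L) → (Fin d → ZMod L) → ℂ) (hu : IsEigenbasis σ V u) :
    ({j | ∃ (i : Fin d) (m : ZMod L), ε < slabMass i m R (u j)}.ncard : ℝ) ≤ ε * (L : ℝ) ^ d := by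
  classical
  choose E hE using hu.1
  have h1 := h u E (fun j => by
    funext x
    rw [Pool.Agent.T2h98.QD.Cmp.HT_mulVec, Pi.smul_apply, smul_eq_mul]
    exact hE j x) hu.2
  refine le_trans (le_of_eq ?_) h1
  congr 1
  rw [Set.ncard_eq_toFinset_card']
  congr 1
  ext j
  simp only [Set.mem_toFinset, Set.mem_ofPred_eq, Finset.mem_filter, Finset.mem_univ, true_and]
  rfl

/-- **Theorem.** Let `d ≥ 3` and `0 ≤ a < (d-1)/(7d+2)`. There are `σ₀ > 0` and `c > 0` such that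
for all real `σ` with `0 < |σ| ≤ σ₀` and all `L ≥ |σ|^{-7}` there is an event of probability at
least `1 - |σ|^c` on which, for every orthonormal basis of eigenvectors of the Hamiltonian on
`(ℤ/L)^d`, all but at most `|σ|^c L^d` of the eigenvectors have mass at most `|σ|^c` in every slab
`{x : x_i ∈ m + {0, …, ⌊|σ|^{-2-a}⌋}}`. -/
theorem result (d : ℕ) (hd : 3 ≤ d) (a : ℝ) (ha : 0 ≤ a)
    (had : a < ((d : ℝ) - 1) / (7 * d + 2)) :
    ∃ σ₀ c : ℝ, 0 < σ₀ ∧ 0 < c ∧ ∀ σ : ℝ, 0 < |σ| → |σ| ≤ σ₀ →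
      ∀ (L : ℕ) [NeZero L], |σ| ^ (-7 : ℝ) ≤ L →
        ∃ Ω : Set ((Fin d → ZMod L) → ℝ), MeasurableSet Ω ∧
          1 - |σ| ^ c ≤ (Measure.pi fun _ : Fin d → ZMod L => gaussianReal 0 1).real Ω ∧
          ∀ V ∈ Ω, ∀ u : (Fin d → ZMod L) → (Fin d → ZMod L) → ℂ, IsEigenbasis σ V u →
            ({j | ∃ (i : Fin d) (m : ZMod L),
              |σ| ^ c < slabMass i m (|σ| ^ (-2 - a)) (u j)}.ncard : ℝ) ≤
              |σ| ^ c * (L : ℝ) ^ d := by
  obtain ⟨σ₀, c, h0, hc, h⟩ := Pool.Agent.T2h98.QD.pos_case d hd a (2 * a + 1) ha had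
    (by linarith)
  refine ⟨σ₀, c, h0, hc, fun σ hσ hσ0 L _ hL => ?_⟩
  rcases lt_or_gt_of_ne (abs_pos.1 hσ) with hs | hs
  · rw [abs_of_neg hs] at hσ hσ0 hL ⊢
    obtain ⟨Ω, hΩ, hP, hb⟩ := (h (-σ) hσ hσ0).2 L hL
    have hm : Measurable fun (V : (Fin d → ZMod L) → ℝ) (x : Fin d → ZMod L) => -V x := by
      fun_prop
    refine ⟨(fun V x => -V x) ⁻¹' Ω, hm hΩ, ?_, fun V hV u hu => ?_⟩
    · have h1 : (Measure.pi fun _ : Fin d → ZMod L => gaussianReal 0 1).real
          ((fun V x => -V x) ⁻¹' Ω) =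
          (Measure.pi fun _ : Fin d → ZMod L => gaussianReal 0 1).real Ω := by
        have h2 := Pool.Agent.T2h98.QD.gp_neg (Fin d → ZMod L)
        have h3 : (Measure.pi fun _ : Fin d → ZMod L => gaussianReal 0 1).map
            (fun V x => -V x) = Measure.pi fun _ : Fin d → ZMod L => gaussianReal 0 1 := h2
        conv_rhs => rw [← h3]
        rw [map_measureReal_apply hm hΩ]
      rw [h1]
      exact hP
    · refine spread_iff (-σ) _ _ (fun x => -V x) (hb _ hV) u ⟨fun j => ?_, hu.2⟩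
      obtain ⟨E, hE⟩ := hu.1 j
      refine ⟨E, fun x => ?_⟩
      rw [← hE x]
      unfold HL
      rw [neg_mul_neg]
  · rw [abs_of_pos hs] at hσ0 hL ⊢
    obtain ⟨Ω, hΩ, hP, hb⟩ := (h σ hs hσ0).2 L hL
    exact ⟨Ω, hΩ, hP, fun V hV u hu => spread_iff σ _ _ V (hb V hV) u hu⟩

end Pool.Agent.T2h98.Kept.LocalizationLength
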