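import Pool.Agent.T2h98.QD.All4

/-!
# Gaussian disorder: localization lengths are much larger than the mean free path

`H = Δ + σ V` on the torus `(ℤ/L)^d`, `d ≥ 3`, iid standard Gaussian `V`. Fix `0 ≤ a < 1/5` (if
`d = 3`), `0 ≤ a < 2/5` (if `d ≥ 4`). For every `η > 0` there is `σ₀ > 0`, depending on `d, a, η`
only, such that for `0 < |σ| ≤ σ₀` and `L ≥ |σ|^{-7}`, with probability at least `1 - η`, for every
orthonormal basis of eigenvectors all but at most `η L^d` of the eigenvectors have mass at most `η`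
in each of the slabs `x_i ∈ m + {0, …, ⌊|σ|^{-2-a}⌋}`. So the typical localization length is at
least `|σ|^{-2-a}`, which is much larger than the mean free path `σ^{-2}`, in all directions.

The library is in `Pool/Agent/T2h98/QD`: a regularized resolvent
`(Δ - E + σ (filtered potential) - i η |Δ - E - i δ|)⁻¹` is studied with the Gaussian Poincare
inequality and integration by parts, which give the diffusive limit of
`E ∑_x e^{i q x} |G(0,x)|²` on the time scale `|σ|^{-2-h}`, `2 a < h`.
-/

set_option autoImplicit false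

open scoped BigOperators
open MeasureTheory ProbabilityTheory

namespace Pool.Agent.T2h98.Kept.LocalizationLength2

/-- the Hamiltonian on the torus `(ℤ/L)^d` -/
noncomputable def HL {d L : ℕ} (σ : ℝ) (V : (Fin d → ZMod L) → ℝ) (u : (Fin d → ZMod L) → ℂ)
    (x : Fin d → ZMod L) : ℂ :=
  ∑ i : Fin d, (u (x + Pi.single i 1) + u (x - Pi.single i 1)) + ((σ * V x : ℝ) : ℂ) * u x

/-- `u` is an orthonormal basis of eigenvectors (indexed by the points of the torus) -/
def IsEigenbasis {d L : ℕ} [NeZero L] (σ : ℝ) (V : (Fin d → ZMod L) → ℝ)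
    (u : (Fin d → ZMod L) → (Fin d → ZMod L) → ℂ) : Prop :=
  (∀ j, ∃ E : ℝ, ∀ x, HL σ V (u j) x = (E : ℂ) * u j x) ∧
  ∀ j k, ∑ x, (starRingEnd ℂ) (u j x) * u k x = if j = k then 1 else 0

open Classical in
/-- the mass of `u` in the slab `x_i ∈ m + {0, 1, …, ⌊R⌋}` of the torus -/
noncomputable def slabMass {d L : ℕ} [NeZero L] (i : Fin d) (m : ZMod L) (R : ℝ)
    (u : (Fin d → ZMod L) → ℂ) : ℝ :=
  ∑ x : Fin d → ZMod L, if ∃ r : ℕ, (r : ℝ) ≤ R ∧ x i = m + (r : ZMod L) then ‖u x‖ ^ 2 else 0

theorem spread_iff {d L : ℕ} [NeZero L] (σ R ε : ℝ) (V : (Fin d → ZMod L) → ℝ)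
    (h : Pool.Agent.T2h98.QD.W.Spread R ε (Pool.Agent.T2h98.QD.HT (d := d) (L := L) σ V))
    (u : (Fin d → ZMod L) → (Fin d → ZMod L) → ℂ) (hu : IsEigenbasis σ V u) :
    ({j | ∃ (i : Fin d) (m : ZMod L), ε < slabMass i m R (u j)}.ncard : ℝ) ≤ ε * (L : ℝ) ^ d := by
  classical
  choose E hE using hu.1
  have h1 := h u E (fun j => by
    funext x
    rw [Pool.Agent.T2h98.QD.Cmp.HT_mulVec, Pi.smul_apply, smul_eq_mul]
    exact hE j x) hu.2
  refine le_trans (le_of_eq ?_) h1
  congr 1
  rw [Set.ncard_eq_toFinset_card']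
  congr 1
  ext j
  simp only [Set.mem_toFinset, Set.mem_ofPred_eq, Finset.mem_filter, Finset.mem_univ, true_and]
  rfl

/-- **Theorem.** Let `d ≥ 3`, `0 ≤ a < 1/5` if `d = 3` and `0 ≤ a < 2/5` if `d ≥ 4`. For every
`η > 0` there is `σ₀ > 0` such that for all real `σ` with `0 < |σ| ≤ σ₀` and all `L ≥ |σ|^{-7}`
there is an event of probability at least `1 - η` on which, for every orthonormal basis of
eigenvectors of the Hamiltonian on `(ℤ/L)^d`, all but at most `η L^d` of the eigenvectors have mass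
at most `η` in every slab `{x : x_i ∈ m + {0, …, ⌊|σ|^{-2-a}⌋}}`. -/
theorem result (d : ℕ) (hd : 3 ≤ d) (a : ℝ) (ha : 0 ≤ a)
    (had : a < if d = 3 then 1 / 5 else 2 / 5) (η : ℝ) (hη : 0 < η) :
    ∃ σ₀ : ℝ, 0 < σ₀ ∧ ∀ σ : ℝ, 0 < |σ| → |σ| ≤ σ₀ →
      ∀ (L : ℕ) [NeZero L], |σ| ^ (-7 : ℝ) ≤ L →
        ∃ Ω : Set ((Fin d → ZMod L) → ℝ), MeasurableSet Ω ∧
          1 - η ≤ (Measure.pi fun _ : Fin d → ZMod L => gaussianReal 0 1).real Ω ∧
          ∀ V ∈ Ω, ∀ u : (Fin d → ZMod L) → (Fin d → ZMod L) → ℂ, IsEigenbasis σ V u →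
            ({j | ∃ (i : Fin d) (m : ZMod L),
              η < slabMass i m (|σ| ^ (-2 - a)) (u j)}.ncard : ℝ) ≤
              η * (L : ℝ) ^ d := by
  obtain ⟨σ₀, h0, h⟩ := Pool.Agent.T2h98.QD.U.posF d hd a (2 * a + 1) ha had
    (by linarith) η hη
  refine ⟨σ₀, h0, fun σ hσ hσ0 L _ hL => ?_⟩
  rcases lt_or_gt_of_ne (abs_pos.1 hσ) with hs | hs
  · rw [abs_of_neg hs] at hσ hσ0 hL ⊢
    obtain ⟨Ω, hΩ, hP, hb⟩ := (h (-σ) hσ hσ0).2 L hL
    have hm : Measurable fun (V : (Fin d → ZMod L) → ℝ) (x : Fin d → ZMod L) => -V x := by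
      fun_prop
    refine ⟨(fun V x => -V x) ⁻¹' Ω, hm hΩ, ?_, fun V hV u hu => ?_⟩
    · have h1 : (Measure.pi fun _ : Fin d → ZMod L => gaussianReal 0 1).real
          ((fun V x => -V x) ⁻¹' Ω) =
          (Measure.pi fun _ : Fin d → ZMod L => gaussianReal 0 1).real Ω := by
        have h2 := Pool.Agent.T2h98.QD.W.gp_neg (Fin d → ZMod L)
        have h3 : (Measure.pi fun _ : Fin d → ZMod L => gaussianReal 0 1).map
            (fun V x => -V x) = Measure.pi fun _ : Fin d → ZMod L => gaussianReal 0 1 := h2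
        conv_rhs => rw [← h3]
        rw [map_measureReal_apply hm hΩ]
      rw [h1]
      exact hP
    · refine spread_iff (-σ) _ _ (fun x => -V x) (hb _ hV) u ⟨fun j => ?_, hu.2⟩
      obtain ⟨E, hE⟩ := hu.1 j
      refine ⟨E, fun x => ?_⟩
      rw [← hE x]
      unfold HL
      rw [neg_mul_neg]
  · rw [abs_of_pos hs] at hσ0 hL ⊢
    obtain ⟨Ω, hΩ, hP, hb⟩ := (h σ hs hσ0).2 L hL
    exact ⟨Ω, hΩ, hP, fun V hV u hu => spread_iff σ _ _ V (hb V hV) u hu⟩

end Pool.Agent.T2h98.Kept.LocalizationLength2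

/-
Claim file of this result while it was handed in (it gave its place to `BoltzmannConductivity`):

Proves: Let d >= 3, 0 <= a < 1/5 if d = 3, 0 <= a < 2/5 if d >= 4, and eta > 0. There is s0 > 0 such that for 0 < |sigma| <= s0 and all L >= |sigma|^(-7), with iid standard Gaussian V on the torus (Z/L)^d, there is an event of probability at least 1 - eta on which, for every orthonormal basis of eigenvectors of Delta + sigma V on the torus, all but at most eta L^d of the eigenvectors have mass at most eta in every slab {x_i in m + {0,...,floor(|sigma|^(-2-a))}} (all coordinates i, all m).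
Definitions: HL = nearest-neighbour sum plus sigma V(x) on (Z/L)^d; IsEigenbasis = orthonormal family of L^d eigenvectors of HL; slabMass = sum of |u(x)|^2 over the slab x_i in m + {0,1,...,floor(R)}.
Relation: Partial answer towards (2b): in all large finite volumes (uniformly in L) the typical localization length of the Hamiltonian of Q1 is at least |sigma|^(-2-a) in every direction, a power larger than the mean free path sigma^(-2). It does not prove continuous spectrum. Earlier work: Chen (localization length >= sigma^(-2)/log), Erdos-Salmhofer-Yau (quantum diffusion at times sigma^(-2-kappa) with very small kappa(d)), Schlag-Shubin-Wolff (d=2), Black-Drogin-Hernandez 2025 (exponents not remembered).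
-/
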