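import Pool.Agent.T2h98.PS.All

/-!
# Gaussian disorder: the momentum distribution of the eigenvectors is microcanonical, in boxes of any
# polynomial size

`H = Δ + σ V` on the torus `(ℤ/L)^d`, `d ≥ 3`, iid standard Gaussian `V`. For all `a > 0` and all `b`,
as `σ → 0`, uniformly for `|σ|^{-2-a} ≤ L ≤ |σ|^{-b}`, with high probability, for every orthonormal
basis `u_j` of eigenvectors, every `m ∈ ℤ^d` and every function `f` on the torus which varies slowly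
on the scale of the mean free path (`|f(x + e_i) - f(x)| ≤ |σ|^{2+a}`), for almost all `j`,
`∑_x f(x) conj(u_j(x)) u_j(x+m)` is close to
`(microcanonical mean of exp(i m·p) at energy E_j) × ∑_x f(x) |u_j(x)|²`.
-/

set_option autoImplicit false

open scoped BigOperators Topology
open MeasureTheory ProbabilityTheory Filter

namespace Pool.Agent.T2h98.Kept.MomentumErgodicity

/-- the Hamiltonian on the torus `(ℤ/L)^d` -/
noncomputable def HL {d L : ℕ} (σ : ℝ) (V : (Fin d → ZMod L) → ℝ) (u : (Fin d → ZMod L) → ℂ)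
    (x : Fin d → ZMod L) : ℂ :=
  ∑ i : Fin d, (u (x + Pi.single i 1) + u (x - Pi.single i 1)) + ((σ * V x : ℝ) : ℂ) * u x

/-- `u` is an orthonormal basis of eigenvectors (indexed by the points of the torus), `E` are the
eigenvalues -/
def IsEigenbasis {d L : ℕ} [NeZero L] (σ : ℝ) (V : (Fin d → ZMod L) → ℝ)
    (u : (Fin d → ZMod L) → (Fin d → ZMod L) → ℂ) (E : (Fin d → ZMod L) → ℝ) : Prop :=
  (∀ j x, HL σ V (u j) x = (E j : ℂ) * u j x) ∧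
  ∀ j k, ∑ x, (starRingEnd ℂ) (u j x) * u k x = if j = k then 1 else 0

/-- the matrix element `⟨u, f S_m u⟩ = ∑_x f(x) conj(u(x)) u(x + m)`, `S_m` the shift by `m` -/
noncomputable def element {d L : ℕ} [NeZero L] (f : (Fin d → ZMod L) → ℂ) (m : Fin d → ℤ)
    (u : (Fin d → ZMod L) → ℂ) : ℂ :=
  ∑ x, f x * ((starRingEnd ℂ) (u x) * u (x + fun i => ((m i : ℤ) : ZMod L)))

/-- the average of `f` in the state `u` -/
noncomputable def average {d L : ℕ} [NeZero L] (f : (Fin d → ZMod L) → ℂ)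
    (u : (Fin d → ZMod L) → ℂ) : ℂ :=
  ∑ x, f x * ((‖u x‖ ^ 2 : ℝ) : ℂ)

/-- the Lorentz function `Γ / ((e - E)² + Γ²)` of the energy `e = 2 ∑ cos (2 π k_i)` of the momentum
`2 π k` -/
noncomputable def lorentz (d : ℕ) (E Γ : ℝ) (k : Fin d → ℝ) : ℝ :=
  Γ / ((∑ i, 2 * Real.cos (2 * Real.pi * k i) - E) ^ 2 + Γ ^ 2)

/-- the mean of `exp (i m · p)` over the momenta `p = 2 π k`, with the weight `lorentz` -/
noncomputable def shellMean (d : ℕ) (m : Fin d → ℤ) (E Γ : ℝ) : ℂ :=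
  (∫ k in Set.Icc (0 : Fin d → ℝ) 1, Complex.exp ((2 * Real.pi * ∑ i, (m i : ℝ) * k i : ℝ) *
    Complex.I) * ((lorentz d E Γ k : ℝ) : ℂ)) /
      ∫ k in Set.Icc (0 : Fin d → ℝ) 1, ((lorentz d E Γ k : ℝ) : ℂ)

/-- the microcanonical mean of `exp (i m · p)` at energy `E`: the limit of `shellMean` for
`Γ → 0+` -/
noncomputable def micro (d : ℕ) (m : Fin d → ℤ) (E : ℝ) : ℂ :=
  limUnder (𝓝[>] (0 : ℝ)) (shellMean d m E)

open Pool.Agent.T2h98.QD Pool.Agent.T2h98.PS Pool.Agent.W788.MFP.Four in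
theorem eb {d L : ℕ} [NeZero L] {σ : ℝ} {V : (Fin d → ZMod L) → ℝ}
    {u : (Fin d → ZMod L) → (Fin d → ZMod L) → ℂ} {E : (Fin d → ZMod L) → ℝ}
    (hu : IsEigenbasis σ V u E) : EB σ V u E := by
  refine ⟨fun j => ?_, hu.2⟩
  funext x
  rw [Pool.Agent.T2h98.QD.Cmp.HT_mulVec, Pi.smul_apply, smul_eq_mul]
  exact hu.1 j x

open Pool.Agent.T2h98.QD Pool.Agent.T2h98.PS in
theorem micro_eq (hL : T_PLM) (d : ℕ) (hd : 3 ≤ d) (m : Fin d → ℤ) (E : ℝ) (hE : 0 < dn d E) :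
    Tendsto (shellMean d m E) (𝓝[>] 0) (𝓝 (micro d m E)) ∧
    micro d m E = ((wm d m E / dn d E : ℝ) : ℂ) := by
  have h1 : Tendsto (shellMean d m E) (𝓝[>] 0) (𝓝 ((wm d m E / dn d E : ℝ) : ℂ)) :=
    hL d hd m E hE
  have h2 : micro d m E = ((wm d m E / dn d E : ℝ) : ℂ) := h1.limUnder_eq
  exact ⟨by rw [h2]; exact h1, h2⟩

/-- reduction to positive `σ` -/
theorem neg_reduce {d : ℕ} {P : (L : ℕ) → [NeZero L] → ℝ → ((Fin d → ZMod L) → ℝ) → Prop}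
    (hneg : ∀ (L : ℕ) [NeZero L] (σ : ℝ) (V : (Fin d → ZMod L) → ℝ), P L (-σ) (fun x => -V x) →
      P L σ V)
    {Q : ℝ → ℕ → Prop} {η : ℝ}
    (h : ∀ᶠ σ : ℝ in 𝓝[>] 0, ∀ (L : ℕ) [NeZero L], Q σ L →
      ∃ Ω : Set ((Fin d → ZMod L) → ℝ), MeasurableSet Ω ∧
        1 - η ≤ (Measure.pi fun _ : Fin d → ZMod L => gaussianReal 0 1).real Ω ∧
        ∀ V ∈ Ω, P L σ V) :
    ∃ σ₀ : ℝ, 0 < σ₀ ∧ ∀ σ : ℝ, 0 < |σ| → |σ| ≤ σ₀ → ∀ (L : ℕ) [NeZero L], Q |σ| L →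
      ∃ Ω : Set ((Fin d → ZMod L) → ℝ), MeasurableSet Ω ∧
        1 - η ≤ (Measure.pi fun _ : Fin d → ZMod L => gaussianReal 0 1).real Ω ∧
        ∀ V ∈ Ω, P L σ V := by
  obtain ⟨σ₁, h0, h1⟩ := (mem_nhdsGT_iff_exists_Ioc_subset).1 h
  have h0' : (0 : ℝ) < σ₁ := h0
  refine ⟨σ₁, h0', fun σ hσ hσ0 L _ hQ => ?_⟩
  rcases lt_or_gt_of_ne (abs_pos.1 hσ) with hs | hs
  · rw [abs_of_neg hs] at hσ hσ0 hQ
    obtain ⟨Ω, hΩ, hP, hb⟩ := h1 ⟨hσ, hσ0⟩ L hQ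
    have hm : Measurable fun (V : (Fin d → ZMod L) → ℝ) (x : Fin d → ZMod L) => -V x := by
      fun_prop
    refine ⟨(fun V x => -V x) ⁻¹' Ω, hm hΩ, ?_, fun V hV => hneg L σ V (hb _ hV)⟩
    have h1 : (Measure.pi fun _ : Fin d → ZMod L => gaussianReal 0 1).real
        ((fun V x => -V x) ⁻¹' Ω) =
        (Measure.pi fun _ : Fin d → ZMod L => gaussianReal 0 1).real Ω := by
      have h2 := Pool.Agent.T2h98.QD.W.gp_neg (Fin d → ZMod L)
      have h3 : (Measure.pi fun _ : Fin d → ZMod L => gaussianReal 0 1).map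
          (fun V x => -V x) = Measure.pi fun _ : Fin d → ZMod L => gaussianReal 0 1 := h2
      conv_rhs => rw [← h3]
      rw [map_measureReal_apply hm hΩ]
    rw [h1]
    exact hP
  · rw [abs_of_pos hs] at hσ0 hQ
    exact h1 ⟨hs, hσ0⟩ L hQ

open Pool.Agent.T2h98.QD Pool.Agent.T2h98.PS in
theorem main (hA : T_PA) (hL : T_PLM) (hdn : ∀ d : ℕ, 3 ≤ d → ∀ E, 0 ≤ dn d E)
    (d : ℕ) (hd : 3 ≤ d) (m : Fin d → ℤ) (a b : ℝ) (ha : 0 < a) (η : ℝ) (hη : 0 < η) :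
    ∃ σ₀ : ℝ, 0 < σ₀ ∧ ∀ σ : ℝ, 0 < |σ| → |σ| ≤ σ₀ → ∀ (L : ℕ) [NeZero L],
      |σ| ^ (-2 - a) ≤ (L : ℝ) → (L : ℝ) ≤ |σ| ^ (-b) →
      ∃ Ω : Set ((Fin d → ZMod L) → ℝ), MeasurableSet Ω ∧
        1 - η ≤ (Measure.pi fun _ : Fin d → ZMod L => gaussianReal 0 1).real Ω ∧
        ∀ V ∈ Ω, ∀ (u : (Fin d → ZMod L) → (Fin d → ZMod L) → ℂ) (E : (Fin d → ZMod L) → ℝ),
        IsEigenbasis σ V u E → ∀ f : (Fin d → ZMod L) → ℂ, (∀ x, ‖f x‖ ≤ 1) →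
        (∀ x i, ‖f (x + Pi.single i 1) - f x‖ ≤ |σ| ^ (2 + a)) →
        ({j | η < ‖element f m (u j) - micro d m (E j) * average f (u j)‖}.ncard : ℝ) ≤
          η * (L : ℝ) ^ d := by
  obtain ⟨κ, hκ⟩ := exists_nat_ge b
  obtain ⟨σ₁, h1, h2⟩ := neg_reduce (d := d)
    (P := fun L _ σ V => ∀ (u : (Fin d → ZMod L) → (Fin d → ZMod L) → ℂ)
      (E : (Fin d → ZMod L) → ℝ),
      IsEigenbasis σ V u E → ∀ f : (Fin d → ZMod L) → ℂ, (∀ x, ‖f x‖ ≤ 1) →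
      (∀ x i, ‖f (x + Pi.single i 1) - f x‖ ≤ |σ| ^ (2 + a)) →
      ({j | η < ‖element f m (u j) - micro d m (E j) * average f (u j)‖}.ncard : ℝ) ≤
        η * (L : ℝ) ^ d)
    (Q := fun s L => s ^ (-2 - a) ≤ (L : ℝ) ∧ (L : ℝ) ≤ s ^ (-b)) (η := η) (by
      intro L _ σ V hP u E hu f hf1 hf2
      refine hP u E ⟨fun j x => ?_, hu.2⟩ f hf1 (by rwa [abs_neg])
      have h3 := hu.1 j x
      unfold HL at h3 ⊢
      rw [← h3, neg_mul_neg]) (by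
      have h3 := hA κ d hd a ha m (η / 2) (by positivity)
      have h4 : ∀ᶠ σ : ℝ in 𝓝[>] 0, σ < 1 := by
        filter_upwards [Ioo_mem_nhdsGT (zero_lt_one (α := ℝ))] with σ hσ
        exact hσ.2
      filter_upwards [h3, h4, self_mem_nhdsWithin] with σ hσ hσ1 hσ0 L _ hQ
      have hσ0' : (0 : ℝ) < σ := hσ0
      obtain ⟨Ω, k1, k2, k3⟩ := hσ L hQ.1 (hQ.2.trans
        (Real.rpow_le_rpow_of_exponent_ge hσ0' hσ1.le (by linarith)))
      refine ⟨Ω, k1, by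
        have : 1 - η ≤ 1 - η / 2 := by linarith
        exact this.trans k2, fun V hV u E hu f hf1 hf2 => ?_⟩
      obtain ⟨k4, k5⟩ := k3 V hV u E (eb hu)
      rw [abs_of_pos hσ0'] at hf2
      have k6 := k5 f hf1 hf2
      have hN : Pool.Agent.W788.MFP.Four.NN d L = (L : ℝ) ^ d := rfl
      rw [hN] at k4 k6
      have hsub : {j | η < ‖element f m (u j) - micro d m (E j) * average f (u j)‖} ⊆
          {j | dn d (E j) = 0} ∪ {j | η / 2 < ‖∑ x, f x * (star (u j x) *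
            u j (x + fun i => ((m i : ℤ) : ZMod L))) -
            ((wm d m (E j) / dn d (E j) : ℝ) : ℂ) * ∑ x, f x * ((‖u j x‖ ^ 2 : ℝ) : ℂ)‖} := by
        intro j hj
        by_cases h0 : dn d (E j) = 0
        · exact Or.inl h0
        · right
          have h5 : 0 < dn d (E j) := lt_of_le_of_ne (hdn d hd _) (Ne.symm h0)
          have h6 : η < ‖element f m (u j) - micro d m (E j) * average f (u j)‖ := hj
          rw [(micro_eq hL d hd m (E j) h5).2] at h6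
          show η / 2 < ‖element f m (u j) - ((wm d m (E j) / dn d (E j) : ℝ) : ℂ) *
            average f (u j)‖
          linarith
      have h7 := (Set.ncard_le_ncard hsub (Set.toFinite _)).trans (Set.ncard_union_le _ _)
      have h8 : ({j | η < ‖element f m (u j) - micro d m (E j) * average f (u j)‖}.ncard : ℝ) ≤
          ({j | dn d (E j) = 0}.ncard : ℝ) + ({j | η / 2 < ‖∑ x, f x * (star (u j x) *
            u j (x + fun i => ((m i : ℤ) : ZMod L))) -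
            ((wm d m (E j) / dn d (E j) : ℝ) : ℂ) *
              ∑ x, f x * ((‖u j x‖ ^ 2 : ℝ) : ℂ)‖}.ncard : ℝ) := by
        exact_mod_cast h7
      linarith)
  exact ⟨σ₁, h1, fun σ hσ hσ0 L _ k1 k2 => h2 σ hσ hσ0 L ⟨k1, k2⟩⟩

/-- **Theorem.** Momentum ergodicity in boxes of any polynomial size. -/
theorem result (d : ℕ) (hd : 3 ≤ d) (m : Fin d → ℤ) :
    (∀ E : ℝ, |E| < 2 * (d : ℝ) → Tendsto (shellMean d m E) (𝓝[>] 0) (𝓝 (micro d m E))) ∧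
    ∀ a b : ℝ, 0 < a → ∀ η : ℝ, 0 < η →
    ∃ σ₀ : ℝ, 0 < σ₀ ∧ ∀ σ : ℝ, 0 < |σ| → |σ| ≤ σ₀ → ∀ (L : ℕ) [NeZero L],
      |σ| ^ (-2 - a) ≤ (L : ℝ) → (L : ℝ) ≤ |σ| ^ (-b) →
      ∃ Ω : Set ((Fin d → ZMod L) → ℝ), MeasurableSet Ω ∧
        1 - η ≤ (Measure.pi fun _ : Fin d → ZMod L => gaussianReal 0 1).real Ω ∧
        ∀ V ∈ Ω, ∀ (u : (Fin d → ZMod L) → (Fin d → ZMod L) → ℂ) (E : (Fin d → ZMod L) → ℝ),
        IsEigenbasis σ V u E → ∀ f : (Fin d → ZMod L) → ℂ, (∀ x, ‖f x‖ ≤ 1) →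
        (∀ x i, ‖f (x + Pi.single i 1) - f x‖ ≤ |σ| ^ (2 + a)) →
        ({j | η < ‖element f m (u j) - micro d m (E j) * average f (u j)‖}.ncard : ℝ) ≤
          η * (L : ℝ) ^ d := by
  have hD := Pool.Agent.T2h98.QD.U.dosF
  have hL := Pool.Agent.T2h98.PS.All.plmA
  refine ⟨fun E hE => (micro_eq hL d hd m E (Pool.Agent.T2h98.PS.pps hD d hd E hE)).1,
    fun a b ha η hη => ?_⟩
  exact main Pool.Agent.T2h98.PS.All.paA hL (fun d hd => (hD d hd).2.2.1) d hd m a b ha η hη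

end Pool.Agent.T2h98.Kept.MomentumErgodicity
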