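import Pool.Agent.T2h98.QD.All5

/-!
# Gaussian disorder: quantum diffusion beyond the kinetic time scale

`H_σ = Δ + σ ξ` on `ℤ^d`, `d ≥ 3`, `(Δψ)(x) = ∑_{|y-x|=1} ψ(y)`, iid standard Gaussian `ξ`.
Let `0 < h < 2/5` for `d = 3` and `0 < h < 4/5` for `d ≥ 4`. As `σ → 0`, at times
`t = s |σ|^{-2-h}` and distances of order `|σ|^{-2-h/2}` the position distribution of
`ψ_t = exp(-i t H_σ) δ_0` converges, in mean over the disorder (in particular in probability), in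
the sense of characteristic functions and uniformly for `s` in compact intervals, to a
deterministic mixture of Gaussians: the heat flow with the diffusion constant of the linear
Boltzmann equation at energy `E`, integrated against the density of states.

The library is in `Pool/Agent/T2h98/QD`. On a large torus the resolvent `R` is studied with the
Gaussian Poincare inequality and integration by parts. The inputs are a form bound for the
potential relative to `|Δ - E - i δ|` (`prob2`, `rqf`) and the embedding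
`∑ |a|² |b|² ≤ C(δ) ⟨a, |Δ-E-iδ| a⟩ ⟨b, |Δ-E-iδ| b⟩` (`emb`). They give the self-consistent equation
for the mean of `R` in the norm of all Fourier multipliers (`ParU.es_le`), and the mean of the
current in the exact continuity equation `2 i (Im ⟨R⟩ - ε S_q) = N⁻¹ E tr(R^* (h - h_q) R_q)` up to
small errors (`ParU.cur`); together these give the limit at each energy. The mean of the characteristic
function is a positive definite function of the time, which bounds the variation in time of the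
random characteristic function in mean square (`eqt`) and removes the averages in time.
-/

set_option autoImplicit false

open scoped BigOperators Topology
open MeasureTheory ProbabilityTheory Filter

namespace Pool.Agent.T2h98.Kept.QuantumDiffusion

/-- `(H_σ ψ)(x) = ∑_{|y-x|=1} ψ(y) + σ ξ(x) ψ(x)` -/
noncomputable def H {d : ℕ} (σ : ℝ) (ξ : (Fin d → ℤ) → ℝ) (ψ : (Fin d → ℤ) → ℂ)
    (x : Fin d → ℤ) : ℂ :=
  ∑ i : Fin d, (ψ (x + Pi.single i 1) + ψ (x - Pi.single i 1)) + ((σ * ξ x : ℝ) : ℂ) * ψ x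

/-- `ψ_t = exp(-i t H_σ) δ_0`: `i ∂_t ψ_t(x) = (H_σ ψ_t)(x)` for all `t` and `x`, `ψ_0 = δ_0` and
`∑_x |ψ_t(x)|² = 1` for all `t` -/
structure IsEvolution {d : ℕ} (σ : ℝ) (ξ : (Fin d → ℤ) → ℝ) (ψ : ℝ → (Fin d → ℤ) → ℂ) :
    Prop where
  init : ψ 0 = Pi.single 0 1
  deriv : ∀ (t : ℝ) (x : Fin d → ℤ), HasDerivAt (fun s => ψ s x) (-(Complex.I * H σ ξ (ψ t) x)) t
  mass : ∀ t, HasSum (fun x => ‖ψ t x‖ ^ 2) 1

/-- the characteristic function `∑_x exp(i q·x) |p(x)|²` of the position -/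
noncomputable def posChar {d : ℕ} (q : Fin d → ℝ) (p : (Fin d → ℤ) → ℂ) : ℂ :=
  ∑' x : Fin d → ℤ, Complex.exp (((∑ i, q i * (x i : ℝ) : ℝ) : ℂ) * Complex.I) *
    ((‖p x‖ ^ 2 : ℝ) : ℂ)

/-- `n` is the density of states of `Δ` and `w` the density of the squared velocity: for all
continuous `f` and all `j`, `∫ f n` and `∫ f w` are the means over the momenta `k ∈ [-π, π]^d` of
`f(2 ∑_i cos k_i)` and of `4 sin² k_j f(2 ∑_i cos k_i)` -/
structure IsDensities (d : ℕ) (n w : ℝ → ℝ) : Prop where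
  cn : Continuous n
  cw : Continuous w
  nonneg : ∀ E, 0 ≤ n E ∧ 0 ≤ w E
  supp : ∀ E : ℝ, 2 * (d : ℝ) ≤ |E| → n E = 0 ∧ w E = 0
  mean_n : ∀ f : ℝ → ℝ, Continuous f → ∫ E : ℝ, f E * n E =
    (2 * Real.pi)⁻¹ ^ d * ∫ k in Set.Icc (fun _ : Fin d => -Real.pi) (fun _ => Real.pi),
      f (∑ i, 2 * Real.cos (k i))
  mean_w : ∀ f : ℝ → ℝ, Continuous f → ∀ j : Fin d, ∫ E : ℝ, f E * w E =
    (2 * Real.pi)⁻¹ ^ d * ∫ k in Set.Icc (fun _ : Fin d => -Real.pi) (fun _ => Real.pi),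
      4 * Real.sin (k j) ^ 2 * f (∑ i, 2 * Real.cos (k i))

theorem evol_iff {d : ℕ} (σ : ℝ) (ξ : (Fin d → ℤ) → ℝ) (ψ : ℝ → (Fin d → ℤ) → ℂ) :
    IsEvolution σ ξ ψ ↔ Pool.Agent.T2h98.QD.Evol (fun x => σ * ξ x) ψ :=
  ⟨fun h => ⟨h.init, h.deriv, h.mass⟩, fun h => ⟨h.init, h.deriv, h.mass⟩⟩

/-- **Theorem.** Let `d ≥ 3`. For all `σ` and `ξ` there is exactly one evolution
`ψ_t = exp(-i t H_σ) δ_0`. There are a density of states `n` and a density `w` of the squared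
velocity of `Δ`, and if `0 < h < 2/5` (`d = 3`), `0 < h < 4/5` (`d ≥ 4`), then for all
`Q ∈ ℝ^d` and `S > 0`, as `σ → 0`, the random variable
`∑_x exp(i |σ|^{2+h/2} Q·x) |ψ_t(x)|²`, `t = s |σ|^{-2-h}`, converges in `L¹` of the disorder to
the number `∫ n(E) exp(-s |Q|² w(E) / (2 π n(E)²)) dE`, uniformly for `s ∈ [0, S]`. -/
theorem result (d : ℕ) (hd : 3 ≤ d) :
    (∀ (σ : ℝ) (ξ : (Fin d → ℤ) → ℝ), ∃! ψ : ℝ → (Fin d → ℤ) → ℂ, IsEvolution σ ξ ψ) ∧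
    ∃ n w : ℝ → ℝ, IsDensities d n w ∧
      ∀ h : ℝ, 0 < h → h < (if d = 3 then 2 / 5 else 4 / 5) →
      ∀ Ψ : ℝ → ((Fin d → ℤ) → ℝ) → ℝ → (Fin d → ℤ) → ℂ,
        (∀ σ ξ, IsEvolution σ ξ (Ψ σ ξ)) →
        (∀ (σ : ℝ) (q : Fin d → ℝ),
          Measurable (fun p : ((Fin d → ℤ) → ℝ) × ℝ => posChar q (Ψ σ p.1 p.2)) ∧
          ∀ ξ t, ‖posChar q (Ψ σ ξ t)‖ ≤ 1) ∧
        ∀ (Q : Fin d → ℝ) (S ε : ℝ), 0 < ε → ∀ᶠ σ : ℝ in 𝓝[≠] 0, ∀ s : ℝ, 0 ≤ s → s ≤ S →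
          ∫ ξ, ‖posChar (|σ| ^ (2 + h / 2) • Q) (Ψ σ ξ (s / |σ| ^ (2 + h))) -
              ((∫ E, n E *
                Real.exp (-(s * (∑ i, Q i ^ 2) * (w E / (2 * Real.pi * n E ^ 2)))) : ℝ) : ℂ)‖
              ∂(Measure.infinitePi fun _ : Fin d → ℤ => gaussianReal 0 1) ≤ ε := by
  have hex : ∀ (σ : ℝ) (ξ : (Fin d → ℤ) → ℝ), ∃! ψ : ℝ → (Fin d → ℤ) → ℂ,
      IsEvolution σ ξ ψ := by
    intro σ ξ
    have h1 := Pool.Agent.T2h98.QD.exi d (fun x => σ * ξ x)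
    simpa only [evol_iff] using h1
  refine ⟨hex, Pool.Agent.T2h98.QD.dn d, Pool.Agent.T2h98.QD.dw d, ?_, ?_⟩
  · obtain ⟨c1, c2, c3, c4, c5, c6⟩ := Pool.Agent.T2h98.QD.U.dosF d hd
    exact ⟨c1, c2, fun E => ⟨c3 E, c4 E⟩, c5, fun f hf => (c6 f hf).1.symm,
      fun f hf j => ((c6 f hf).2 j).symm⟩
  · intro h h0 h1 Ψ hΨ
    have hΨ' : ∀ v, Pool.Agent.T2h98.QD.Evol v (Ψ 1 v) := by
      intro v
      have h2 := (evol_iff _ _ _).1 (hΨ 1 v)
      simpa only [one_mul] using h2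
    have heq : ∀ (σ : ℝ) (ξ : (Fin d → ℤ) → ℝ), Ψ σ ξ = Ψ 1 fun x => σ * ξ x := by
      intro σ ξ
      obtain ⟨ψ, -, hu⟩ := Pool.Agent.T2h98.QD.exi d (fun x => σ * ξ x)
      rw [hu _ ((evol_iff _ _ _).1 (hΨ σ ξ)), hu _ (hΨ' _)]
    refine ⟨fun σ q => ⟨?_, fun ξ t => ?_⟩, fun Q S ε hε => ?_⟩
    · simp only [heq σ]
      exact Pool.Agent.T2h98.QD.LQ.Fz_meas hΨ' (Pool.Agent.T2h98.QD.meas d _ hΨ') q σ
    · exact Pool.Agent.T2h98.QD.LQ.Fz_norm q _ ((hΨ σ ξ).mass t)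
    · filter_upwards [Pool.Agent.T2h98.QD.U.qdl3F hd h0 h1 (Ψ 1) hΨ' Q S ε hε] with σ hσ s hs0 hsS
      simp only [heq σ]
      exact hσ s hs0 hsS

end Pool.Agent.T2h98.Kept.QuantumDiffusion
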