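import Pool.Agent.T2h98.QD.All6

/-!
# Gaussian disorder: quantum ergodicity in boxes much larger than the mean free path

`H = Δ + σ V` on the torus `(ℤ/L)^d`, `d ≥ 3`, iid standard Gaussian `V`. Let
`0 < a`, `b < 1/5` if `d = 3` and `b < 2/5` if `d ≥ 4`. As `σ → 0`, uniformly for
`|σ|^{-2-a} ≤ L ≤ |σ|^{-2-b}`, with high probability the eigenvectors of `H` are equidistributed in
the torus: for every continuous function `f` on the unit torus and every orthonormal basis `u_j` of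
eigenvectors, `∑_x f(x/L) |u_j(x)|²` is close to `∫ f` for all but a small fraction of the `j`.
The mean free path is of order `σ^{-2}`, so the size of the torus is larger than the mean free path
by a power.

The library is in `Pool/Agent/T2h98/QD`. The mean over the eigenvectors of the squares of the
averages of a character of the torus is bounded by an Abel mean in time (`qea`), at the time
`τ σ² L²` needed to diffuse through the torus, and its expectation by an integral over the energy of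
the ladder (`qem`), which is computed with the method of `QuantumDiffusion`, now on tori of size
`|σ|^{-2-b}` (`ims`, `lim3`, `int3`).
-/

set_option autoImplicit false

open scoped BigOperators Topology
open MeasureTheory ProbabilityTheory Filter

namespace Pool.Agent.T2h98.Kept.QuantumErgodicity

/-- the Hamiltonian on the torus `(ℤ/L)^d` -/
noncomputable def HL {d L : ℕ} (σ : ℝ) (V : (Fin d → ZMod L) → ℝ) (u : (Fin d → ZMod L) → ℂ)
    (x : Fin d → ZMod L) : ℂ :=
  ∑ i : Fin d, (u (x + Pi.single i 1) + u (x - Pi.single i 1)) + ((σ * V x : ℝ) : ℂ) * u x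

/-- `u` is an orthonormal basis of eigenvectors (indexed by the points of the torus) -/
def IsEigenbasis {d L : ℕ} [NeZero L] (σ : ℝ) (V : (Fin d → ZMod L) → ℝ)
    (u : (Fin d → ZMod L) → (Fin d → ZMod L) → ℂ) : Prop :=
  (∀ j, ∃ E : ℝ, ∀ x, HL σ V (u j) x = (E : ℂ) * u j x) ∧
  ∀ j k, ∑ x, (starRingEnd ℂ) (u j x) * u k x = if j = k then 1 else 0

/-- the point `x / L` of the unit torus `(ℝ/ℤ)^d` -/
noncomputable def point {d L : ℕ} (x : Fin d → ZMod L) : Fin d → UnitAddCircle :=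
  fun i => ((((x i).val : ℝ) / L : ℝ) : UnitAddCircle)

/-- the average `∑_x f(x/L) |u(x)|²` of `f` in the state `u` -/
noncomputable def average {d L : ℕ} [NeZero L] (f : (Fin d → UnitAddCircle) → ℂ)
    (u : (Fin d → ZMod L) → ℂ) : ℂ :=
  ∑ x, f (point x) * ((‖u x‖ ^ 2 : ℝ) : ℂ)

/-- the mean `∫ f` of `f` over the unit torus -/
noncomputable def mean {d : ℕ} (f : (Fin d → UnitAddCircle) → ℂ) : ℂ :=
  ∫ x in Set.Icc (0 : Fin d → ℝ) 1, f fun i => (x i : UnitAddCircle)

/-- **Theorem.** Let `d ≥ 3`, `0 < a`, and `b < 1/5` if `d = 3`, `b < 2/5` if `d ≥ 4`. For every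
continuous `f` on the unit torus and every `η > 0` there is `σ₀ > 0` such that for all real `σ` with
`0 < |σ| ≤ σ₀` and all `L` with `|σ|^{-2-a} ≤ L ≤ |σ|^{-2-b}` there is an event of probability at
least `1 - η` on which, for every orthonormal basis `u_j` of eigenvectors of the Hamiltonian on
`(ℤ/L)^d`, `|∑_x f(x/L) |u_j(x)|² - ∫ f| ≤ η` for all but at most `η L^d` of the `j`. -/
theorem result (d : ℕ) (hd : 3 ≤ d) (a b : ℝ) (ha : 0 < a)
    (hb : b < if d = 3 then 1 / 5 else 2 / 5) (f : (Fin d → UnitAddCircle) → ℂ)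
    (hf : Continuous f) (η : ℝ) (hη : 0 < η) :
    ∃ σ₀ : ℝ, 0 < σ₀ ∧ ∀ σ : ℝ, 0 < |σ| → |σ| ≤ σ₀ → ∀ (L : ℕ) [NeZero L],
      |σ| ^ (-2 - a) ≤ (L : ℝ) → (L : ℝ) ≤ |σ| ^ (-2 - b) →
      ∃ Ω : Set ((Fin d → ZMod L) → ℝ), MeasurableSet Ω ∧
        1 - η ≤ (Measure.pi fun _ : Fin d → ZMod L => gaussianReal 0 1).real Ω ∧
        ∀ V ∈ Ω, ∀ u : (Fin d → ZMod L) → (Fin d → ZMod L) → ℂ, IsEigenbasis σ V u →
          ({j | η < ‖average f (u j) - mean f‖}.ncard : ℝ) ≤ η * (L : ℝ) ^ d := by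
  obtain ⟨σ₁, h0, h⟩ := (mem_nhdsGT_iff_exists_Ioc_subset).1
    (Pool.Agent.T2h98.QD.QE.qeF d hd a b ha hb f hf η hη)
  have h0' : (0 : ℝ) < σ₁ := h0
  have key : ∀ σ : ℝ, 0 < σ → σ ≤ σ₁ → ∀ (L : ℕ) [NeZero L],
      σ ^ (-2 - a) ≤ (L : ℝ) → (L : ℝ) ≤ σ ^ (-2 - b) →
      ∃ Ω : Set ((Fin d → ZMod L) → ℝ), MeasurableSet Ω ∧
        1 - η ≤ (Measure.pi fun _ : Fin d → ZMod L => gaussianReal 0 1).real Ω ∧
        ∀ V ∈ Ω, ∀ u : (Fin d → ZMod L) → (Fin d → ZMod L) → ℂ, IsEigenbasis σ V u →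
          ({j | η < ‖average f (u j) - mean f‖}.ncard : ℝ) ≤ η * (L : ℝ) ^ d := by
    intro σ hσ hσ1 L _ hL1 hL2
    obtain ⟨Ω, k1, k2, k3⟩ := h ⟨hσ, hσ1⟩ L hL1 hL2
    refine ⟨Ω, k1, k2, fun V hV u hu => ?_⟩
    choose E hE using hu.1
    exact k3 V hV u E (fun j => by
      funext x
      rw [Pool.Agent.T2h98.QD.Cmp.HT_mulVec, Pi.smul_apply, smul_eq_mul]
      exact hE j x) hu.2
  refine ⟨σ₁, h0', fun σ hσ hσ0 L _ hL1 hL2 => ?_⟩
  rcases lt_or_gt_of_ne (abs_pos.1 hσ) with hs | hs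
  · rw [abs_of_neg hs] at hσ hσ0 hL1 hL2
    obtain ⟨Ω, hΩ, hP, hb⟩ := key (-σ) hσ hσ0 L hL1 hL2
    have hm : Measurable fun (V : (Fin d → ZMod L) → ℝ) (x : Fin d → ZMod L) => -V x := by
      fun_prop
    refine ⟨(fun V x => -V x) ⁻¹' Ω, hm hΩ, ?_, fun V hV u hu => ?_⟩
    · have h1 : (Measure.pi fun _ : Fin d → ZMod L => gaussianReal 0 1).real
          ((fun V x => -V x) ⁻¹' Ω) =
          (Measure.pi fun _ : Fin d → ZMod L => gaussianReal 0 1).real Ω := by
        have h2 := Pool.Agent.T2h98.QD.W.gp_neg (Fin d → ZMod L)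
        have h3 : (Measure.pi fun _ : Fin d → ZMod L => gaussianReal 0 1).map
            (fun V x => -V x) = Measure.pi fun _ : Fin d → ZMod L => gaussianReal 0 1 := h2
        conv_rhs => rw [← h3]
        rw [map_measureReal_apply hm hΩ]
      rw [h1]
      exact hP
    · refine hb _ hV u ⟨fun j => ?_, hu.2⟩
      obtain ⟨E, hE⟩ := hu.1 j
      refine ⟨E, fun x => ?_⟩
      rw [← hE x]
      unfold HL
      rw [neg_mul_neg]
  · rw [abs_of_pos hs] at hσ0 hL1 hL2
    exact key σ hs hσ0 L hL1 hL2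

end Pool.Agent.T2h98.Kept.QuantumErgodicity
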